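import Mathlib

/-!
# No nut graph with a 2-regular complement (real kernel version)
-/

set_option autoImplicit false

namespace Pool.Agent.helper83.NutTwo

/-- A fixed point free involution has a 2-colouring. -/
theorem exists_col {Q : Type} (τ : Q → Q) (h1 : ∀ q, τ (τ q) = q) (h2 : ∀ q, τ q ≠ q) :
    ∃ c : Q → Prop, ∀ q, c (τ q) ↔ ¬ c q := by
  refine ⟨fun q => WellOrderingRel q (τ q), fun q => ?_⟩
  show WellOrderingRel (τ q) (τ (τ q)) ↔ ¬ WellOrderingRel q (τ q)
  rw [h1]
  constructor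
  · intro h h'
    exact asymm h h'
  · intro h
    rcases trichotomous_of (r := WellOrderingRel) q (τ q) with h' | h' | h'
    · exact absurd h' h
    · exact absurd h'.symm (h2 q)
    · exact h'

theorem zpow_flip {D : Type} (F R : Equiv.Perm D) (h : R * F * R⁻¹ = F⁻¹) (j : ℤ) (d : D) :
    R ((F ^ j) d) = (F ^ (-j)) (R d) := by
  have h1 : (R * F * R⁻¹) ^ j = R * F ^ j * R⁻¹ := conj_zpow
  rw [h, inv_zpow', eq_mul_inv_iff_mul_eq] at h1
  have h2 := congrArg (fun p : Equiv.Perm D => p d) h1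
  simp only [Equiv.Perm.mul_apply] at h2
  exact h2.symm

theorem not_sameCycle {D : Type} (F R : Equiv.Perm D) (h : R * F * R⁻¹ = F⁻¹)
    (h1 : ∀ d, R d ≠ d) (h2 : ∀ d, R d ≠ F d) (d : D) : ¬ F.SameCycle d (R d) := by
  rintro ⟨k, hk⟩
  rcases Int.even_or_odd' k with ⟨j, hj | hj⟩
  · have h3 := zpow_flip F R h j d
    have h5 : (F ^ (-j)) (R d) = (F ^ j) d := by
      rw [← hk, ← Equiv.Perm.mul_apply, ← zpow_add, hj]
      congr 2
      ring
    rw [h5] at h3
    exact h1 _ h3
  · have h3 := zpow_flip F R h j d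
    have h5 : (F ^ (-j)) (R d) = F ((F ^ j) d) := by
      rw [← hk, ← Equiv.Perm.mul_apply, ← zpow_add, hj]
      have h4 : -j + (2 * j + 1) = 1 + j := by ring
      rw [h4, zpow_add, zpow_one, Equiv.Perm.mul_apply]
    rw [h5] at h3
    exact h2 _ h3

theorem no_two_regular_gen (d : ℝ) (hd2 : d ^ 2 < 4) {V : Type} [Fintype V] [DecidableEq V]
    [Nonempty V] (B : V → V → Bool)
    (hs : ∀ u v, B u v = B v u) (hi : ∀ v, B v v = false)
    (hd : ∀ v, (Finset.univ.filter (fun u => B v u = true)).card = 2)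
    (x : V → ℝ) (hx : ∀ v, x v ≠ 0) (hk : ∀ v, d * x v + ∑ u, (if B v u then x u else 0) = 0)
    (hsimple : ∀ z : V → ℝ, (∀ v, d * z v + ∑ u, (if B v u then z u else 0) = 0) →
      ∃ l : ℝ, ∀ v, z v = l * x v) : False := by
  classical
  have hN : ∀ v u, ∃ w, B v u = true → (w ≠ u ∧ ∀ t, B v t = true ↔ t = u ∨ t = w) := by
    intro v u
    obtain ⟨a, b, hab, hf⟩ := Finset.card_eq_two.1 (hd v)
    have h1 : ∀ t, B v t = true ↔ t = a ∨ t = b := by
      intro t
      have := congrArg (fun s => t ∈ s) hf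
      simpa using this
    by_cases hu : u = a
    · refine ⟨b, fun _ => ⟨?_, fun t => ?_⟩⟩
      · rw [hu]; exact hab.symm
      · rw [h1, hu]
    · refine ⟨a, fun h => ⟨fun h' => hu h'.symm, fun t => ?_⟩⟩
      rw [h1 u] at h
      rcases h with h | h
      · exact absurd h hu
      · rw [h1, h, or_comm]
  choose oth hoth using hN
  have hB : ∀ v u, B v u = true → B v (oth v u) = true := fun v u h =>
    ((hoth v u h).2 _).2 (Or.inr rfl)
  have hne : ∀ v u, B v u = true → oth v u ≠ u := fun v u h => (hoth v u h).1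
  have hoo : ∀ v u, B v u = true → oth v (oth v u) = u := by
    intro v u h
    rcases ((hoth v u h).2 _).1 (hB v _ (hB v u h)) with h' | h'
    · exact h'
    · exact absurd h' (hne v _ (hB v u h))
  have hsum : ∀ (z : V → ℝ) v u, B v u = true →
      ∑ t, (if B v t then z t else 0) = z u + z (oth v u) := by
    intro z v u h
    rw [← Finset.sum_filter]
    have h1 : (Finset.univ.filter fun t => B v t = true) = {u, oth v u} := by
      ext t
      simp only [Finset.mem_filter, Finset.mem_univ, true_and, Finset.mem_insert,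
        Finset.mem_singleton]
      exact (hoth v u h).2 t
    rw [h1, Finset.sum_pair (hne v u h).symm]
  have hswap : ∀ v u, B v u = true → B u v = true := fun v u h => by rw [hs]; exact h
  let D := {p : V × V // B p.1 p.2 = true}
  let F : Equiv.Perm D :=
    { toFun := fun p => ⟨(p.1.2, oth p.1.2 p.1.1), hB _ _ (hswap _ _ p.2)⟩
      invFun := fun p => ⟨(oth p.1.1 p.1.2, p.1.1), hswap _ _ (hB _ _ p.2)⟩
      left_inv := by
        rintro ⟨⟨v, u⟩, h⟩
        exact Subtype.ext (Prod.ext (hoo _ _ (hswap _ _ h)) rfl)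
      right_inv := by
        rintro ⟨⟨v, u⟩, h⟩
        exact Subtype.ext (Prod.ext rfl (hoo _ _ h)) }
  let R : Equiv.Perm D :=
    { toFun := fun p => ⟨(p.1.2, p.1.1), hswap _ _ p.2⟩
      invFun := fun p => ⟨(p.1.2, p.1.1), hswap _ _ p.2⟩
      left_inv := fun p => rfl
      right_inv := fun p => rfl }
  have hF : ∀ v u (h : B v u = true), F ⟨(v, u), h⟩ = ⟨(u, oth u v), hB _ _ (hswap _ _ h)⟩ :=
    fun v u h => rfl
  have hR : ∀ v u (h : B v u = true), R ⟨(v, u), h⟩ = ⟨(u, v), hswap _ _ h⟩ := fun v u h => rfl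
  have hRF : R * F * R⁻¹ = F⁻¹ := by
    ext1 ⟨⟨v, u⟩, h⟩
    rfl
  have hns := not_sameCycle F R hRF
    (by
      rintro ⟨⟨v, u⟩, h⟩ h'
      rw [hR, Subtype.mk.injEq, Prod.mk.injEq] at h'
      rw [h'.1, hi] at h
      exact absurd h (by decide))
    (by
      rintro ⟨⟨v, u⟩, h⟩ h'
      rw [hR, hF, Subtype.mk.injEq, Prod.mk.injEq] at h'
      exact hne u v (hswap _ _ h) h'.2.symm)
  let st : Setoid D := Equiv.Perm.SameCycle.setoid F
  have hlift : ∀ p q : D, st.r p q → st.r (R p) (R q) := by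
    rintro p q ⟨k, hk'⟩
    refine ⟨-k, ?_⟩
    rw [← zpow_flip F R hRF k p, hk']
  let τ : Quotient st → Quotient st := Quotient.map R hlift
  obtain ⟨c, hc⟩ := exists_col τ
    (by
      intro q
      induction q using Quotient.inductionOn with
      | h p => rfl)
    (by
      intro q
      induction q using Quotient.inductionOn with
      | h p =>
        intro h
        have h' : st.r (R p) p := Quotient.exact h
        exact hns p (Equiv.Perm.SameCycle.symm h'))
  let C : V → V → Prop := fun v u => ∃ h : B v u = true, c (Quotient.mk st ⟨(v, u), h⟩)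
  have hC1 : ∀ v u, B v u = true → (C u v ↔ ¬ C v u) := by
    intro v u h
    have h1 := hc (Quotient.mk st ⟨(v, u), h⟩)
    have h2 : τ (Quotient.mk st ⟨(v, u), h⟩) = Quotient.mk st ⟨(u, v), hswap _ _ h⟩ := rfl
    rw [h2] at h1
    constructor
    · rintro ⟨_, h3⟩ ⟨_, h4⟩
      exact (h1.1 h3) h4
    · intro h3
      exact ⟨hswap _ _ h, h1.2 fun h4 => h3 ⟨h, h4⟩⟩
  have hC2 : ∀ v u, B v u = true → (C v u ↔ C u (oth u v)) := by
    intro v u h
    have h2 : Quotient.mk st ⟨(u, oth u v), hB _ _ (hswap _ _ h)⟩ =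
        Quotient.mk st ⟨(v, u), h⟩ := by
      apply Quotient.sound
      show F.SameCycle _ _
      refine Equiv.Perm.SameCycle.symm ⟨1, ?_⟩
      rw [zpow_one]
      rfl
    constructor
    · rintro ⟨_, h3⟩
      exact ⟨hB _ _ (hswap _ _ h), by rw [h2]; exact h3⟩
    · rintro ⟨_, h3⟩
      exact ⟨h, by rw [← h2]; exact h3⟩
  -- successor
  have hsucc : ∀ v, ∃ w, B v w = true ∧ C v w ∧ ¬ C v (oth v w) := by
    intro v
    obtain ⟨a, b, hab, hf⟩ := Finset.card_eq_two.1 (hd v)
    have ha : B v a = true := by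
      have : a ∈ (Finset.univ.filter fun t => B v t = true) := by rw [hf]; simp
      simpa using this
    have h1 : C v (oth v a) ↔ ¬ C v a := by
      rw [← hC1 v a ha, hC2 a v (hswap _ _ ha)]
    by_cases h : C v a
    · exact ⟨a, ha, h, fun h' => (h1.1 h') h⟩
    · exact ⟨oth v a, hB _ _ ha, h1.2 h, by rw [hoo v a ha]; exact h⟩
  choose s hs1 hs2 hs3 using hsucc
  have hs4 : ∀ v w, B v w = true → C v w → w = s v := by
    intro v w h h'
    rcases ((hoth v (s v) (hs1 v)).2 w).1 h with h1 | h1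
    · exact h1
    · rw [h1] at h'
      exact absurd h' (hs3 v)
  obtain ⟨l, hl⟩ := hsimple (fun v => x (s v)) (by
    intro v
    rw [hsum _ v (s v) (hs1 v)]
    -- s (s v) = other neighbour of s v
    have h1 : s (s v) = oth (s v) v :=
      (hs4 _ _ (hB _ _ (hswap _ _ (hs1 v))) ((hC2 v (s v) (hs1 v)).1 (hs2 v))).symm
    have h2 : s (oth v (s v)) = v := by
      refine (hs4 _ _ (hswap _ _ (hB _ _ (hs1 v))) ?_).symm
      rw [hC1 v _ (hB _ _ (hs1 v))]
      exact hs3 v
    have h3 := hk (s v)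
    rw [hsum x (s v) v (hswap _ _ (hs1 v))] at h3
    show d * x (s v) + (x (s (s v)) + x (s (oth v (s v)))) = 0
    rw [h1, h2]
    linarith)
  obtain ⟨v⟩ := ‹Nonempty V›
  have h2 : s (oth v (s v)) = v := by
    refine (hs4 _ _ (hswap _ _ (hB _ _ (hs1 v))) ?_).symm
    rw [hC1 v _ (hB _ _ (hs1 v))]
    exact hs3 v
  have h3 := hk v
  rw [hsum x v (s v) (hs1 v)] at h3
  have h4 := hl v
  have h5 := hl (oth v (s v))
  rw [h2] at h5
  have h6 := hx (oth v (s v))
  have h7 : x (oth v (s v)) * (1 + d * l + l ^ 2) = 0 := by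
    have : x v = l * x (oth v (s v)) := h5
    have h8 : x (s v) = l * x v := h4
    rw [h8, this] at h3
    linarith [h3]
  rcases mul_eq_zero.1 h7 with h8 | h8
  · exact h6 h8
  · nlinarith [sq_nonneg (l + d / 2)]


theorem no_two_regular {V : Type} [Fintype V] [DecidableEq V] [Nonempty V] (B : V → V → Bool)
    (hs : ∀ u v, B u v = B v u) (hi : ∀ v, B v v = false)
    (hd : ∀ v, (Finset.univ.filter (fun u => B v u = true)).card = 2)
    (x : V → ℝ) (hx : ∀ v, x v ≠ 0) (hk : ∀ v, x v + ∑ u, (if B v u then x u else 0) = 0)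
    (hsimple : ∀ z : V → ℝ, (∀ v, z v + ∑ u, (if B v u then z u else 0) = 0) →
      ∃ l : ℝ, ∀ v, z v = l * x v) : False :=
  no_two_regular_gen 1 (by norm_num) B hs hi hd x hx (fun v => by rw [one_mul]; exact hk v)
    (fun z hz => hsimple z fun v => by have := hz v; rwa [one_mul] at this)

/-- There is no 2-regular nut graph. -/
theorem no_two_regular_zero {V : Type} [Fintype V] [DecidableEq V] [Nonempty V] (B : V → V → Bool)
    (hs : ∀ u v, B u v = B v u) (hi : ∀ v, B v v = false)
    (hd : ∀ v, (Finset.univ.filter (fun u => B v u = true)).card = 2)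
    (x : V → ℝ) (hx : ∀ v, x v ≠ 0) (hk : ∀ v, ∑ u, (if B v u then x u else 0) = 0)
    (hsimple : ∀ z : V → ℝ, (∀ v, ∑ u, (if B v u then z u else 0) = 0) →
      ∃ l : ℝ, ∀ v, z v = l * x v) : False :=
  no_two_regular_gen 0 (by norm_num) B hs hi hd x hx (fun v => by rw [zero_mul, zero_add]; exact hk v)
    (fun z hz => hsimple z fun v => by have := hz v; rwa [zero_mul, zero_add] at this)

end Pool.Agent.helper83.NutTwo
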