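import Pool.Agent.helper23.HB.Stmts

open MeasureTheory ProbabilityTheory Set Filter Topology
open scoped ENNReal NNReal

namespace Pool.Agent.helper83.HB

open Pool.Agent.helper23.HB

/-- bounds of the clock -/
theorem mCK : St_CK := by
  intro r hr hpos
  have hsinh : ∀ y, 0 ≤ y → 0 < Real.sinh (r y) := fun y hy => Real.sinh_pos_iff.mpr (hpos y hy)
  have hg : ContinuousOn (fun y => 1 / (Real.sinh (r y)) ^ 2) (Ici 0) := by
    refine continuousOn_const.div ((Real.continuous_sinh.comp_continuousOn hr).pow 2) ?_
    intro y hy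
    exact (pow_pos (hsinh y hy) 2).ne'
  have hii : ∀ a b : ℝ, 0 ≤ a → a ≤ b →
      IntervalIntegrable (fun y => 1 / (Real.sinh (r y)) ^ 2) volume a b := by
    intro a b ha hab
    apply ContinuousOn.intervalIntegrable
    rw [uIcc_of_le hab]
    exact hg.mono fun y hy => ha.trans hy.1
  have hsub : ∀ a b : ℝ, 0 ≤ a → a ≤ b →
      clk r b - clk r a = ∫ y in a..b, 1 / (Real.sinh (r y)) ^ 2 := by
    intro a b ha hab
    have h1 := intervalIntegral.integral_add_adjacent_intervals (hii 0 a le_rfl ha) (hii a b ha hab)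
    rw [clk, clk, ← h1]
    ring
  have hlt : ∀ a b : ℝ, 0 ≤ a → a < b → clk r a < clk r b := by
    intro a b ha hab
    have h1 := hsub a b ha hab.le
    have h2 : 0 < ∫ y in a..b, 1 / (Real.sinh (r y)) ^ 2 := by
      refine intervalIntegral.intervalIntegral_pos_of_pos_on (hii a b ha hab.le) ?_ hab
      intro y hy
      have := hsinh y (ha.trans hy.1.le)
      positivity
    linarith
  refine ⟨?_, hlt, ?_, ?_, ?_⟩
  · intro a b ha hab
    rcases hab.eq_or_lt with h | h
    · rw [h]
    · exact (hlt a b ha h).le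
  · intro t ht
    have ht' : (0 : ℝ) ≤ t := ht
    have h1 : ContinuousOn (clk r) (uIcc 0 (t + 1)) := by
      apply intervalIntegral.continuousOn_primitive_interval
      rw [uIcc_of_le (by linarith)]
      exact (hg.mono fun y hy => hy.1).integrableOn_Icc
    rw [uIcc_of_le (by linarith)] at h1
    refine (h1 t ⟨ht', by linarith⟩).mono_of_mem_nhdsWithin ?_
    have h2 : Iio (t + 1) ∈ 𝓝 t := Iio_mem_nhds (by linarith)
    filter_upwards [self_mem_nhdsWithin, mem_nhdsWithin_of_mem_nhds h2] with y hy1 hy2
    exact ⟨hy1, le_of_lt hy2⟩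
  · intro m z hm hz
    by_cases hz1 : z ≤ 1
    · have h1 : Real.exp 1 < 2.7182818286 := Real.exp_one_lt_d9
      have h2 : Real.exp 2 < 8 := by
        have : Real.exp 2 = Real.exp 1 * Real.exp 1 := by rw [← Real.exp_add]; norm_num
        rw [this]
        have h0 : 0 < Real.exp 1 := Real.exp_pos 1
        nlinarith
      have h3 : 1 ≤ 8 * Real.exp (-2 * z) := by
        have h4 : Real.exp (-2) ≤ Real.exp (-2 * z) := Real.exp_le_exp.mpr (by linarith)
        have h5 : 1 ≤ 8 * Real.exp (-2) := by
          rw [Real.exp_neg, ← div_eq_mul_inv, le_div_iff₀ (Real.exp_pos 2)]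
          linarith
        linarith
      exact (min_le_left _ _).trans h3
    · push Not at hz1
      refine (min_le_right _ _).trans ?_
      rw [hsub m (m + 1) hm (by linarith)]
      have hE : Real.exp (-2 * z) ≤ 1 / 4 := by
        have h1 : 2 ≤ Real.exp z := by
          have := Real.add_one_le_exp z
          linarith
        have h2 : Real.exp (-2 * z) = (Real.exp z * Real.exp z)⁻¹ := by
          rw [← Real.exp_add, ← Real.exp_neg]
          congr 1
          ring
        rw [h2, one_div]
        apply inv_anti₀ (by norm_num)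
        nlinarith
      have hb : ∀ y ∈ Icc m (m + 1),
          1 / (Real.sinh (r y)) ^ 2 ≤ 8 * Real.exp (-2 * z) := by
        intro y hy
        have h1 : Real.sinh z ≤ Real.sinh (r y) := Real.sinh_le_sinh.mpr (hz y hy)
        have h0 : 0 < Real.sinh z := Real.sinh_pos_iff.mpr (by linarith)
        have h2 : (Real.sinh z) ^ 2 ≤ (Real.sinh (r y)) ^ 2 := by
          apply pow_le_pow_left₀ h0.le h1
        have h3 : 1 / (Real.sinh (r y)) ^ 2 ≤ 1 / (Real.sinh z) ^ 2 := by
          apply one_div_le_one_div_of_le (pow_pos h0 2) h2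
        refine h3.trans ?_
        rw [div_le_iff₀ (pow_pos h0 2), Real.sinh_eq]
        have h4 : Real.exp (-2 * z) = Real.exp (-z) * Real.exp (-z) := by
          rw [← Real.exp_add]
          congr 1
          ring
        have h5 : Real.exp z * Real.exp (-z) = 1 := by
          rw [← Real.exp_add, add_neg_cancel, Real.exp_zero]
        have h6 : 8 * Real.exp (-2 * z) * ((Real.exp z - Real.exp (-z)) / 2) ^ 2 =
            2 * (Real.exp z * Real.exp (-z) - Real.exp (-z) * Real.exp (-z)) ^ 2 := by
          rw [h4]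
          ring
        rw [h6, h5, ← h4]
        have h7 : 0 < Real.exp (-2 * z) := Real.exp_pos _
        nlinarith
      have h1 : ∫ y in m..(m + 1), 1 / (Real.sinh (r y)) ^ 2 ≤
          ∫ _ in m..(m + 1), 8 * Real.exp (-2 * z) := by
        refine intervalIntegral.integral_mono_on (by linarith) (hii m (m + 1) hm (by linarith))
          (by simp) hb
      rw [intervalIntegral.integral_const] at h1
      simpa using h1
  · intro a b z ha hab hz
    rw [hsub a b ha hab]
    have hb : ∀ y ∈ Icc a b, 4 * Real.exp (-2 * z) ≤ 1 / (Real.sinh (r y)) ^ 2 := by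
      intro y hy
      have h0 := hsinh y (ha.trans hy.1)
      have h1 : Real.sinh (r y) ≤ Real.exp z / 2 := by
        rw [Real.sinh_eq]
        have h2 : Real.exp (r y) ≤ Real.exp z := Real.exp_le_exp.mpr (hz y hy)
        have h3 := Real.exp_pos (-(r y))
        linarith
      rw [le_div_iff₀ (pow_pos h0 2)]
      have h2 : (Real.sinh (r y)) ^ 2 ≤ (Real.exp z / 2) ^ 2 := pow_le_pow_left₀ h0.le h1 2
      have h3 : 4 * Real.exp (-2 * z) * (Real.exp z / 2) ^ 2 = 1 := by
        have h4 : 4 * Real.exp (-2 * z) * (Real.exp z / 2) ^ 2 =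
            Real.exp (-2 * z) * (Real.exp z * Real.exp z) := by ring
        rw [h4, ← Real.exp_add, ← Real.exp_add]
        have : -2 * z + (z + z) = 0 := by ring
        rw [this, Real.exp_zero]
      calc 4 * Real.exp (-2 * z) * (Real.sinh (r y)) ^ 2
          ≤ 4 * Real.exp (-2 * z) * (Real.exp z / 2) ^ 2 :=
            mul_le_mul_of_nonneg_left h2 (by positivity)
        _ = 1 := h3
    have h1 : ∫ _ in a..b, 4 * Real.exp (-2 * z) ≤
        ∫ y in a..b, 1 / (Real.sinh (r y)) ^ 2 := by
      refine intervalIntegral.integral_mono_on hab (by simp) (hii a b ha hab) hb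
    rw [intervalIntegral.integral_const, smul_eq_mul] at h1
    linarith

end Pool.Agent.helper83.HB
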