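import Pool.Agent.helper23.HB.Stmts

open MeasureTheory ProbabilityTheory Set Filter Topology
open scoped ENNReal NNReal

namespace Pool.Agent.helper83.HB

open Pool.Agent.helper23.HB

theorem blk_one_fst (X : ℝ → ℝ) (k : ℕ) : (blk 1 X k).1 = X (k + 1) - X k := by
  simp [blk]

theorem blk_one_bdd {X : ℝ → ℝ} (hX : Continuous X) (k : ℕ) :
    BddAbove (range fun r : Icc (0 : ℝ) 1 => |X (k + r) - X k|) := by
  have h1 : Continuous fun r : ℝ => |X (k + r) - X k| :=
    ((hX.comp (continuous_const.add continuous_id)).sub continuous_const).abs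
  have h2 := (isCompact_Icc (a := (0 : ℝ)) (b := 1)).bddAbove_image h1.continuousOn
  have h3 : (fun r : ℝ => |X (k + r) - X k|) '' Icc (0 : ℝ) 1 =
      range fun r : Icc (0 : ℝ) 1 => |X (k + r) - X k| := by
    rw [image_eq_range]
  rwa [h3] at h2

theorem le_blk_one_snd {X : ℝ → ℝ} (hX : Continuous X) (k : ℕ) {y : ℝ} (h0 : 0 ≤ y) (h1 : y ≤ 1) :
    |X (k + y) - X k| ≤ (blk 1 X k).2 := by
  have h2 : (blk 1 X k).2 = ⨆ r : Icc (0 : ℝ) 1, |X (k + r) - X k| := by
    simp [blk]
  rw [h2]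
  exact le_ciSup (blk_one_bdd hX k) (⟨y, h0, h1⟩ : Icc (0 : ℝ) 1)

/-- lower bound by the reflected walk -/
theorem mRAD (h : St_R1) : St_RAD := by
  intro lam X r hc hX hr
  have hR := h.1 lam X r hX hr
  have hY : ∀ m : ℕ, Yk (lam + 1 / 2) (blk 1 X) m ≤ r m := by
    intro m
    induction m with
    | zero =>
      have := hr.pos 0 le_rfl
      simpa [Yk] using this.le
    | succ m ih =>
      rw [Yk]
      apply max_le
      · have h1 := hR m (m + 1) (Nat.cast_nonneg m) (by linarith)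
        rw [blk_one_fst]
        push_cast
        linarith
      · exact (hr.pos _ (Nat.cast_nonneg _)).le
  intro m
  refine ⟨hY m, ?_⟩
  intro y h0 h1
  have h2 := hR m (m + y) (Nat.cast_nonneg m) (by linarith)
  have h3 := neg_abs_le (X (m + y) - X m)
  have h4 := le_blk_one_snd hX m h0 h1
  have h5 := hY m
  have h6 : 0 ≤ (lam + 1 / 2) * (m + y - m) := mul_nonneg hc.le (by linarith)
  linarith

/-- telescoping of the block increments. -/
theorem sum_blk_one (X : ℝ → ℝ) {k j : ℕ} (hkj : k ≤ j) :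
    ∑ i ∈ Finset.Ico k j, (blk 1 X i).1 = X j - X k := by
  have h1 : ∀ i : ℕ, (blk 1 X i).1 = (fun i : ℕ => X i) (i + 1) - (fun i : ℕ => X i) i := by
    intro i
    rw [blk_one_fst]
    push_cast
    rfl
  rw [Finset.sum_congr rfl fun i _ => h1 i, Finset.sum_Ico_sub (fun i : ℕ => X i) hkj]

/-- upper bound away from the bad event -/
theorem mUPR (h : St_R1) : St_UPR := by
  intro ε hε
  obtain ⟨r1, hr1, hR⟩ := h.2 ε hε
  refine ⟨r1, hr1, ?_⟩
  intro lam X r hc hX hr j hbad y hy0 hy1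
  have hR2 := (hR lam X r hX hr hc).2
  rw [bad, not_or] at hbad
  obtain ⟨hb1, hb2⟩ := hbad
  push Not at hb1 hb2
  have hj0 : (0 : ℝ) ≤ j := Nat.cast_nonneg j
  -- at time `j`
  have h1 : r j ≤ max (r 0) r1 + (lam + 1 / 2 + 2 * ε) * j := by
    obtain ⟨y0, hy, hle⟩ := hR2 0 j le_rfl hj0
    have h2 : X j - X y0 ≤ ε * j := by
      rcases hy.2.eq_or_lt with h3 | h3
      · rw [h3, sub_self]
        positivity
      · have hfl : (⌊y0⌋₊ : ℝ) ≤ y0 := Nat.floor_le hy.1
        have hfl2 : y0 < ⌊y0⌋₊ + 1 := Nat.lt_floor_add_one y0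
        have hkj : ⌊y0⌋₊ < j := by
          have : (⌊y0⌋₊ : ℝ) < j := lt_of_le_of_lt hfl h3
          exact_mod_cast this
        have h4 := hb1 _ hkj
        rw [sum_blk_one X hkj.le] at h4
        have h5 := le_blk_one_snd hX ⌊y0⌋₊ (y := y0 - ⌊y0⌋₊) (by linarith) (by linarith)
        rw [add_sub_cancel] at h5
        have h6 := neg_abs_le (X y0 - X ⌊y0⌋₊)
        linarith
    rw [sub_zero] at hle
    linarith
  -- inside the block `j`
  obtain ⟨y1, hy, hle⟩ := hR2 j (j + y) hj0 (by linarith)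
  have h2 : X (j + y) - X y1 ≤ 2 * (ε * j) := by
    have h3 := le_blk_one_snd hX j hy0 hy1
    have h4 := le_blk_one_snd hX j (y := y1 - j) (by linarith [hy.1]) (by linarith [hy.2])
    rw [add_sub_cancel] at h4
    have h5 := le_abs_self (X (j + y) - X j)
    have h6 := neg_abs_le (X y1 - X j)
    linarith
  have h3 : max (r j) r1 ≤ max (r 0) r1 + (lam + 1 / 2 + 2 * ε) * j := by
    apply max_le h1
    have : 0 ≤ (lam + 1 / 2 + 2 * ε) * j := mul_nonneg (by linarith) hj0
    linarith [le_max_right (r 0) r1]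
  have h4 : (lam + 1 / 2 + ε) * (j + y - j) ≤ lam + 1 / 2 + ε := by
    have : 0 < lam + 1 / 2 + ε := by linarith
    nlinarith
  nlinarith

end Pool.Agent.helper83.HB
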