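import Pool.Agent.helper83.MILocal

/-!
Calculus of the mutual information along the arc `u = h sin t + a cos t`,
`v = h sin t - b cos t`.
-/

namespace Pool.Agent.helper83.MICalc

open Real Set Filter Topology Pool.Agent.helper83.MIHyp Pool.Agent.helper83.MILocal

/-- `artanh`, as a difference of logarithms. -/
noncomputable def ath (z : ℝ) : ℝ := (log (1 + z) - log (1 - z)) / 2

lemma ath_eq {z : ℝ} (h1 : -1 < z) (h2 : z < 1) : ath z = artanh z := by
  rw [artanh_eq_half_log ⟨h1.le, h2.le⟩, log_div (by linarith) (by linarith)]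
  unfold ath
  ring

lemma tanh_ath {z : ℝ} (h1 : -1 < z) (h2 : z < 1) : tanh (ath z) = z := by
  rw [ath_eq h1 h2, tanh_artanh ⟨h1, h2⟩]

lemma ath_neg (z : ℝ) : ath (-z) = - ath z := by
  unfold ath
  rw [sub_neg_eq_add, ← sub_eq_add_neg]
  ring

lemma ath_lt {y z : ℝ} (h1 : -1 < y) (h : y < z) (h2 : z < 1) : ath y < ath z := by
  rw [ath_eq h1 (h.trans h2), ath_eq (h1.trans h) h2]
  exact artanh_lt_artanh h1 h2 h

/-- Second-order inequality at a stationary point, first half. -/
lemma local_neg_aux {p r u v x y : ℝ} (hp : 0 < p) (hr : 0 < r) (hpr : p + r = 1)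
    (hv : -1 < v) (hvu : v < u) (hu : u < 1) (hx : x ^ 2 ≤ 1 - u ^ 2)
    (stat : p * x * (ath u - ath (p * u + r * v)) + r * y * (ath v - ath (p * u + r * v)) = 0)
    (hAB : ath (p * u + r * v) - ath v ≤ ath u - ath (p * u + r * v)) :
    p * (x ^ 2 / (1 - u ^ 2) - u * (ath u - ath (p * u + r * v)))
      + r * (y ^ 2 / (1 - v ^ 2) - v * (ath v - ath (p * u + r * v)))
      - (p * x + r * y) ^ 2 / (1 - (p * u + r * v) ^ 2) < 0 := by
  set m := p * u + r * v with hm
  have hr' : r = 1 - p := by linarith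
  have hm1 : v < m := by
    have : m - v = p * (u - v) := by rw [hm, hr']; ring
    have := mul_pos hp (sub_pos.2 hvu)
    linarith
  have hm2 : m < u := by
    have : u - m = r * (u - v) := by rw [hm, hr']; ring
    have := mul_pos hr (sub_pos.2 hvu)
    linarith
  have hB : 0 < ath m - ath v := sub_pos.2 (ath_lt hv hm1 (hm2.trans hu))
  have tu : tanh (ath m + (ath u - ath m)) = u := by
    rw [add_sub_cancel, tanh_ath (hv.trans hvu) hu]
  have tv : tanh (ath m - (ath m - ath v)) = v := by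
    rw [sub_sub_cancel, tanh_ath hv (hvu.trans hu)]
  have tm : tanh (ath m) = m := tanh_ath (hv.trans hm1) (hm2.trans hu)
  have h := local_hyp (A := ath u - ath m) (B := ath m - ath v) (b := ath m) (p := p) (r := r)
    (x := x) (y := y) hB hAB hp hr hpr (by rw [tu, tv, tm]) (by rw [tu]; exact hx)
    (by linarith)
  rw [tu, tv, tm] at h
  linarith

/-- Second-order inequality at a stationary point. -/
lemma local_neg {p r u v x y : ℝ} (hp : 0 < p) (hr : 0 < r) (hpr : p + r = 1)
    (hv : -1 < v) (hvu : v < u) (hu : u < 1) (hx : x ^ 2 ≤ 1 - u ^ 2) (hy : y ^ 2 ≤ 1 - v ^ 2)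
    (stat : p * x * (ath u - ath (p * u + r * v)) + r * y * (ath v - ath (p * u + r * v)) = 0) :
    p * (x ^ 2 / (1 - u ^ 2) - u * (ath u - ath (p * u + r * v)))
      + r * (y ^ 2 / (1 - v ^ 2) - v * (ath v - ath (p * u + r * v)))
      - (p * x + r * y) ^ 2 / (1 - (p * u + r * v) ^ 2) < 0 := by
  rcases le_total (ath (p * u + r * v) - ath v) (ath u - ath (p * u + r * v)) with h | h
  · exact local_neg_aux hp hr hpr hv hvu hu hx stat h
  · have e : r * -v + p * -u = -(p * u + r * v) := by ring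
    have h1 := local_neg_aux (p := r) (r := p) (u := -v) (v := -u) (x := y) (y := x)
      hr hp (by linarith) (by linarith) (by linarith) (by linarith) (by rw [neg_sq]; exact hy)
      (by rw [e, ath_neg, ath_neg, ath_neg]; linarith)
      (by rw [e, ath_neg, ath_neg, ath_neg]; linarith)
    rw [e, ath_neg, ath_neg, ath_neg, neg_sq, neg_sq, neg_sq] at h1
    have e2 : r * y + p * x = p * x + r * y := by ring
    rw [e2] at h1
    linarith

/-- `((1 + z) log (1 + z) + (1 - z) log (1 - z)) / 2`. -/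
noncomputable def g (z : ℝ) : ℝ := ((1 + z) * log (1 + z) + (1 - z) * log (1 - z)) / 2

lemma hasDerivAt_ath {z : ℝ} (h1 : -1 < z) (h2 : z < 1) : HasDerivAt ath (1 / (1 - z ^ 2)) z := by
  have e1 : (1 + z) ≠ 0 := by linarith
  have e2 : (1 - z) ≠ 0 := by linarith
  have d1 : HasDerivAt (fun z : ℝ => 1 + z) 1 z := by
    simpa using (hasDerivAt_id' z).const_add 1
  have d2 : HasDerivAt (fun z : ℝ => 1 - z) (-1) z := by
    simpa using (hasDerivAt_id' z).const_sub 1
  have h := ((d1.log e1).fun_sub (d2.log e2)).div_const 2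
  refine h.congr_deriv ?_
  have e3 : 1 - z ^ 2 ≠ 0 := by
    have : 1 - z ^ 2 = (1 + z) * (1 - z) := by ring
    rw [this]; positivity
  field_simp
  ring

lemma hasDerivAt_g {z : ℝ} (h1 : -1 < z) (h2 : z < 1) : HasDerivAt g (ath z) z := by
  have e1 : (1 + z) ≠ 0 := by linarith
  have e2 : (1 - z) ≠ 0 := by linarith
  have d1 : HasDerivAt (fun z : ℝ => 1 + z) 1 z := by
    simpa using (hasDerivAt_id' z).const_add 1
  have d2 : HasDerivAt (fun z : ℝ => 1 - z) (-1) z := by
    simpa using (hasDerivAt_id' z).const_sub 1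
  have h := ((d1.fun_mul (d1.log e1)).fun_add (d2.fun_mul (d2.log e2))).div_const 2
  refine h.congr_deriv ?_
  unfold ath
  field_simp
  ring

/-- If `0 ≤ w ≤ C (t - t₀)²` then `w log w` has derivative `0` at `t₀`. -/
lemma hasDerivAt_mul_log_zero {w : ℝ → ℝ} {t₀ : ℝ} (hw0 : ∀ t, 0 ≤ w t)
    (hw : ∀ t, w t ≤ (t - t₀) ^ 2) (hc : ContinuousAt w t₀) :
    HasDerivAt (fun t => w t * log (w t)) 0 t₀ := by
  have hz : w t₀ = 0 := by
    apply le_antisymm _ (hw0 t₀)
    have := hw t₀
    simpa using this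
  rw [hasDerivAt_iff_tendsto]
  have h1 : Tendsto (fun t => 2 * |negMulLog (√(w t))|) (𝓝 t₀) (𝓝 0) := by
    have h2 : ContinuousAt (fun t => 2 * |negMulLog (√(w t))|) t₀ := by
      have : Continuous (fun x : ℝ => 2 * |negMulLog (√x)|) := by fun_prop
      exact this.continuousAt.comp hc
    have h3 := h2.tendsto
    simp only [hz, sqrt_zero, negMulLog_zero, abs_zero, mul_zero] at h3
    exact h3
  apply squeeze_zero (fun t => by positivity) _ h1
  intro t
  simp only [hz, zero_mul, sub_zero, smul_zero, norm_eq_abs]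
  rcases eq_or_ne t t₀ with rfl | hne
  · simp
  · have hpos : 0 < |t - t₀| := abs_pos.2 (sub_ne_zero.2 hne)
    rw [inv_mul_le_iff₀ hpos]
    have h4 : √(w t) ≤ |t - t₀| := by
      rw [← sqrt_sq_eq_abs]
      exact sqrt_le_sqrt (hw t)
    have h5 : w t * log (w t) = -2 * (√(w t) * negMulLog (√(w t))) := by
      unfold negMulLog
      rcases (hw0 t).eq_or_lt with h | h
      · rw [← h]; simp
      · have h6 : log (w t) = 2 * log (√(w t)) := by
          rw [log_sqrt h.le]; ring
        rw [h6]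
        have h7 : √(w t) * √(w t) = w t := mul_self_sqrt h.le
        linear_combination (-2 * log √(w t)) * h7
    rw [h5, abs_mul, abs_mul]
    have h8 : |(-2 : ℝ)| = 2 := by norm_num
    rw [h8, abs_of_nonneg (sqrt_nonneg _)]
    have h9 := mul_le_mul_of_nonneg_right h4 (abs_nonneg (negMulLog (√(w t))))
    linarith

/-- The curve component `h sin t + a cos t`. -/
noncomputable def cu (h a t : ℝ) : ℝ := h * sin t + a * cos t

/-- Its derivative `h cos t - a sin t`. -/
noncomputable def cu' (h a t : ℝ) : ℝ := h * cos t - a * sin t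

lemma hasDerivAt_cu (h a t : ℝ) : HasDerivAt (cu h a) (cu' h a t) t := by
  have := ((Real.hasDerivAt_sin t).const_mul h).fun_add ((Real.hasDerivAt_cos t).const_mul a)
  exact this.congr_deriv (by unfold cu'; ring)

lemma hasDerivAt_cu' (h a t : ℝ) : HasDerivAt (cu' h a) (-cu h a t) t := by
  have := ((Real.hasDerivAt_cos t).const_mul h).fun_sub ((Real.hasDerivAt_sin t).const_mul a)
  exact this.congr_deriv (by unfold cu; ring)

lemma cu_sq_add (h a t : ℝ) : cu h a t ^ 2 + cu' h a t ^ 2 = h ^ 2 + a ^ 2 := by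
  unfold cu cu'
  linear_combination (h ^ 2 + a ^ 2) * sin_sq_add_cos_sq t

lemma cu_sq_le {h a : ℝ} (ha : h ^ 2 + a ^ 2 ≤ 1) (t : ℝ) : cu h a t ^ 2 ≤ 1 := by
  have := cu_sq_add h a t
  nlinarith [sq_nonneg (cu' h a t)]

lemma cu'_sq_le {h a : ℝ} (ha : h ^ 2 + a ^ 2 ≤ 1) (t : ℝ) :
    cu' h a t ^ 2 ≤ 1 - cu h a t ^ 2 := by
  have := cu_sq_add h a t
  linarith

lemma cu_lt_one {h a t : ℝ} (ha : h ^ 2 + a ^ 2 ≤ 1) (ht : sin t ^ 2 < h ^ 2) :
    -1 < cu h a t ∧ cu h a t < 1 := by
  have h1 := cu_sq_le ha t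
  have h2 : cu h a t ^ 2 ≠ 1 := by
    intro h3
    have h4 := cu'_sq_le ha t
    have h5 : cu' h a t = 0 := by
      have : cu' h a t ^ 2 ≤ 0 := by linarith
      nlinarith [sq_nonneg (cu' h a t)]
    have h6 : cu h a t * sin t + cu' h a t * cos t = h := by
      unfold cu cu'
      linear_combination h * sin_sq_add_cos_sq t
    rw [h5, zero_mul, add_zero] at h6
    have h7 : h ^ 2 = sin t ^ 2 := by
      rw [← h6, mul_pow, h3, one_mul]
    linarith
  have h3 : cu h a t ^ 2 < 1 := lt_of_le_of_ne h1 h2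
  exact abs_lt.1 ((sq_lt_one_iff_abs_lt_one _).1 h3)

lemma hasDerivAt_g_cu {h a : ℝ} (ha : h ^ 2 + a ^ 2 ≤ 1) (t : ℝ) :
    HasDerivAt (fun s => g (cu h a s)) (cu' h a t * ath (cu h a t)) t := by
  have hle := cu_sq_le ha
  have hcont : Continuous (cu h a) := by unfold cu; fun_prop
  by_cases h1 : cu h a t ^ 2 = 1
  · have h4 := cu'_sq_le ha t
    have h5 : cu' h a t = 0 := by
      have : cu' h a t ^ 2 ≤ 0 := by linarith
      nlinarith [sq_nonneg (cu' h a t)]
    rw [h5, zero_mul]
    have hs : h = cu h a t * sin t := by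
      have h6 : cu h a t * sin t + cu' h a t * cos t = h := by
        unfold cu cu'
        linear_combination h * sin_sq_add_cos_sq t
      rw [h5, zero_mul, add_zero] at h6
      exact h6.symm
    have hc : a = cu h a t * cos t := by
      have h6 : cu h a t * cos t - cu' h a t * sin t = a := by
        unfold cu cu'
        linear_combination a * sin_sq_add_cos_sq t
      rw [h5, zero_mul, sub_zero] at h6
      exact h6.symm
    have hform : ∀ s, cu h a s = cu h a t * cos (s - t) := by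
      intro s
      have : cu h a s = (cu h a t * sin t) * sin s + (cu h a t * cos t) * cos s := by
        rw [← hs, ← hc]; rfl
      rw [this, cos_sub]
      ring
    have hcu0 : HasDerivAt (cu h a) 0 t := by
      have := hasDerivAt_cu h a t
      rwa [h5] at this
    have hcos : ∀ s, 1 - cos (s - t) ≤ (s - t) ^ 2 := by
      intro s
      have := one_sub_sq_div_two_le_cos (x := s - t)
      nlinarith [sq_nonneg (s - t)]
    have hcos1 : ∀ s, cos (s - t) ≤ 1 := fun s => cos_le_one _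
    have h12 : (cu h a t - 1) * (cu h a t + 1) = 0 := by linarith
    have h13 : cu h a t = 1 ∨ cu h a t = -1 := by
      rcases mul_eq_zero.1 h12 with h | h
      · left; linarith
      · right; linarith
    rcases h13 with h2 | h2
    · -- `u = 1`
      have hw := hasDerivAt_mul_log_zero (w := fun s => 1 - cu h a s) (t₀ := t)
        (fun s => by simp only [hform s, h2, one_mul]; linarith [hcos1 s])
        (fun s => by simp only [hform s, h2, one_mul]; exact hcos s)
        (by fun_prop)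
      have d1 : HasDerivAt (fun s => 1 + cu h a s) 0 t := by
        simpa using hcu0.const_add 1
      have d2 := d1.fun_mul (d1.log (by rw [h2]; norm_num))
      have d3 := (d2.fun_add hw).div_const 2
      exact d3.congr_deriv (by simp)
    · have hw := hasDerivAt_mul_log_zero (w := fun s => 1 + cu h a s) (t₀ := t)
        (fun s => by simp only [hform s, h2]; linarith [hcos1 s])
        (fun s => by simp only [hform s, h2]; linarith [hcos s])
        (by fun_prop)
      have d1 : HasDerivAt (fun s => 1 - cu h a s) 0 t := by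
        simpa using hcu0.const_sub 1
      have d2 := d1.fun_mul (d1.log (by rw [h2]; norm_num))
      have d3 := (hw.fun_add d2).div_const 2
      exact d3.congr_deriv (by simp)
  · have h3 : cu h a t ^ 2 < 1 := lt_of_le_of_ne (hle t) h1
    have h4 := abs_lt.1 ((sq_lt_one_iff_abs_lt_one _).1 h3)
    have := (hasDerivAt_g h4.1 h4.2).comp t (hasDerivAt_cu h a t)
    exact this.congr_deriv (by ring)

/-- Mutual information along the arc. -/
noncomputable def J (p r h a b t : ℝ) : ℝ :=
  p * g (cu h a t) + r * g (cu h (-b) t) - g (cu h (p * a - r * b) t)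

/-- Its derivative. -/
noncomputable def K (p r h a b t : ℝ) : ℝ :=
  p * (cu' h a t * ath (cu h a t)) + r * (cu' h (-b) t * ath (cu h (-b) t))
    - cu' h (p * a - r * b) t * ath (cu h (p * a - r * b) t)

lemma convex_sq {p r h a b : ℝ} (hp : 0 ≤ p) (hr : 0 ≤ r) (hpr : p + r = 1)
    (ha : h ^ 2 + a ^ 2 ≤ 1) (hb : h ^ 2 + b ^ 2 ≤ 1) : h ^ 2 + (p * a - r * b) ^ 2 ≤ 1 := by
  have hr' : r = 1 - p := by linarith
  have h1 : (p * a - r * b) ^ 2 ≤ p * a ^ 2 + r * b ^ 2 := by
    have : p * a ^ 2 + r * b ^ 2 - (p * a - r * b) ^ 2 = p * r * (a + b) ^ 2 := by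
      subst hr'; ring
    have := mul_nonneg (mul_nonneg hp hr) (sq_nonneg (a + b))
    linarith
  have h2 : p * a ^ 2 ≤ p * (1 - h ^ 2) := mul_le_mul_of_nonneg_left (by linarith) hp
  have h3 : r * b ^ 2 ≤ r * (1 - h ^ 2) := mul_le_mul_of_nonneg_left (by linarith) hr
  have h4 : p * (1 - h ^ 2) + r * (1 - h ^ 2) = 1 - h ^ 2 := by
    rw [← add_mul, hpr, one_mul]
  linarith

lemma hasDerivAt_J {p r h a b : ℝ} (hp : 0 ≤ p) (hr : 0 ≤ r) (hpr : p + r = 1)
    (ha : h ^ 2 + a ^ 2 ≤ 1) (hb : h ^ 2 + b ^ 2 ≤ 1) (t : ℝ) :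
    HasDerivAt (J p r h a b) (K p r h a b t) t := by
  have hb' : h ^ 2 + (-b) ^ 2 ≤ 1 := by rwa [neg_sq]
  exact (((hasDerivAt_g_cu ha t).const_mul p).fun_add
    ((hasDerivAt_g_cu hb' t).const_mul r)).fun_sub
    (hasDerivAt_g_cu (convex_sq hp hr hpr ha hb) t)

lemma hasDerivAt_term {h a t : ℝ} (ha : h ^ 2 + a ^ 2 ≤ 1) (ht : sin t ^ 2 < h ^ 2) :
    HasDerivAt (fun s => cu' h a s * ath (cu h a s))
      (cu' h a t ^ 2 / (1 - cu h a t ^ 2) - cu h a t * ath (cu h a t)) t := by
  obtain ⟨h1, h2⟩ := cu_lt_one ha ht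
  have := (hasDerivAt_cu' h a t).fun_mul ((hasDerivAt_ath h1 h2).comp t (hasDerivAt_cu h a t))
  refine this.congr_deriv ?_
  simp only [Function.comp]
  ring

/-- The derivative of `K`. -/
noncomputable def K' (p r h a b t : ℝ) : ℝ :=
  p * (cu' h a t ^ 2 / (1 - cu h a t ^ 2) - cu h a t * ath (cu h a t))
    + r * (cu' h (-b) t ^ 2 / (1 - cu h (-b) t ^ 2) - cu h (-b) t * ath (cu h (-b) t))
    - (cu' h (p * a - r * b) t ^ 2 / (1 - cu h (p * a - r * b) t ^ 2)
      - cu h (p * a - r * b) t * ath (cu h (p * a - r * b) t))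

lemma hasDerivAt_K {p r h a b t : ℝ} (hp : 0 ≤ p) (hr : 0 ≤ r) (hpr : p + r = 1)
    (ha : h ^ 2 + a ^ 2 ≤ 1) (hb : h ^ 2 + b ^ 2 ≤ 1) (ht : sin t ^ 2 < h ^ 2) :
    HasDerivAt (K p r h a b) (K' p r h a b t) t := by
  have hb' : h ^ 2 + (-b) ^ 2 ≤ 1 := by rwa [neg_sq]
  exact (((hasDerivAt_term ha ht).const_mul p).fun_add
    ((hasDerivAt_term hb' ht).const_mul r)).fun_sub
    (hasDerivAt_term (convex_sq hp hr hpr ha hb) ht)

lemma cu_mix {p r h a b : ℝ} (hpr : p + r = 1) (t : ℝ) :
    p * cu h a t + r * cu h (-b) t = cu h (p * a - r * b) t := by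
  unfold cu
  linear_combination (h * sin t) * hpr

lemma cu'_mix {p r h a b : ℝ} (hpr : p + r = 1) (t : ℝ) :
    p * cu' h a t + r * cu' h (-b) t = cu' h (p * a - r * b) t := by
  unfold cu'
  linear_combination (h * cos t) * hpr

/-- At an interior stationary point the second derivative is negative. -/
lemma K'_neg {p r h a b t : ℝ} (hp : 0 < p) (hr : 0 < r) (hpr : p + r = 1)
    (ha : h ^ 2 + a ^ 2 ≤ 1) (hb : h ^ 2 + b ^ 2 ≤ 1) (hab : 0 < a + b)
    (ht : sin t ^ 2 < h ^ 2) (hc : 0 < cos t) (hK : K p r h a b t = 0) :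
    K' p r h a b t < 0 := by
  have hb' : h ^ 2 + (-b) ^ 2 ≤ 1 := by rwa [neg_sq]
  obtain ⟨u1, u2⟩ := cu_lt_one ha ht
  obtain ⟨v1, v2⟩ := cu_lt_one hb' ht
  have hvu : cu h (-b) t < cu h a t := by
    unfold cu
    nlinarith
  unfold K at hK
  rw [← cu_mix hpr, ← cu'_mix hpr] at hK
  have := local_neg (p := p) (r := r) hp hr hpr v1 hvu u2 (cu'_sq_le ha t) (cu'_sq_le hb' t)
    (by linarith)
  unfold K'
  rw [← cu_mix hpr, ← cu'_mix hpr]
  linarith

lemma K_neg_arg (p r h a b t : ℝ) : K p r h a b (-t) = - K r p h b a t := by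
  have e1 : ∀ a, cu h a (-t) = - cu h (-a) t := by
    intro a; unfold cu; rw [sin_neg, cos_neg]; ring
  have e2 : ∀ a, cu' h a (-t) = cu' h (-a) t := by
    intro a; unfold cu'; rw [sin_neg, cos_neg]; ring
  unfold K
  rw [e1, e1, e1, e2, e2, e2, ath_neg, ath_neg, ath_neg, neg_neg]
  have e3 : -(p * a - r * b) = r * b - p * a := by ring
  rw [e3]
  ring

/-- Fencing: once nonpositive, `K` stays nonpositive. -/
lemma K_fence {p r h a b x z : ℝ} (hp : 0 < p) (hr : 0 < r) (hpr : p + r = 1)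
    (hh : 0 < h) (hh1 : h < 1)
    (ha : h ^ 2 + a ^ 2 ≤ 1) (hb : h ^ 2 + b ^ 2 ≤ 1) (hab : 0 < a + b)
    (hx : -arcsin h < x) (hxz : x ≤ z) (hz : z < arcsin h) (hK : K p r h a b x ≤ 0) :
    K p r h a b z ≤ 0 := by
  have hlt : arcsin h < π / 2 := arcsin_lt_pi_div_two.2 hh1
  have key : ∀ t, x ≤ t → t ≤ z → sin t ^ 2 < h ^ 2 ∧ 0 < cos t := by
    intro t ht1 ht2
    have h1 : -arcsin h < t := by linarith
    have h2 : t < arcsin h := by linarith
    constructor
    · have h3 : sin t < h := by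
        have := sin_lt_sin_of_lt_of_le_pi_div_two (by linarith) hlt.le h2
        rwa [sin_arcsin (by linarith) hh1.le] at this
      have h4 : -h < sin t := by
        have := sin_lt_sin_of_lt_of_le_pi_div_two (x := -arcsin h) (by linarith) (by linarith) h1
        rwa [sin_neg, sin_arcsin (by linarith) hh1.le] at this
      nlinarith
    · exact cos_pos_of_mem_Ioo ⟨by linarith, by linarith⟩
  have := image_le_of_deriv_right_lt_deriv_boundary' (f := K p r h a b) (f' := K' p r h a b)
    (a := x) (b := z) (B := fun _ => 0) (B' := fun _ => 0)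
    (fun t ht => ((hasDerivAt_K hp.le hr.le hpr ha hb
      (key t ht.1 ht.2).1).continuousAt).continuousWithinAt)
    (fun t ht => (hasDerivAt_K hp.le hr.le hpr ha hb (key t ht.1 ht.2.le).1).hasDerivWithinAt)
    hK continuousOn_const (fun t _ => (hasDerivAt_const t (0 : ℝ)).hasDerivWithinAt)
    (fun t ht h0 => K'_neg hp hr hpr ha hb hab (key t ht.1 ht.2.le).1 (key t ht.1 ht.2.le).2 h0)
  exact this (right_mem_Icc.2 hxz)

lemma aux_right {u m : ℝ} (hm : -1 < m) (hmu : m < u) (hu : u ≤ 1) :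
    (1 - u) * (ath u - ath m) ≤ (u - m) / (1 + m) := by
  rcases hu.eq_or_lt with h | h
  · rw [h, sub_self, zero_mul]
    apply div_nonneg <;> linarith
  · have e0 : ath u - ath m = (log ((1 + u) / (1 + m)) + log ((1 - m) / (1 - u))) / 2 := by
      unfold ath
      rw [log_div (by linarith) (by linarith), log_div (by linarith) (by linarith)]
      ring
    have h1 : log ((1 + u) / (1 + m)) ≤ (1 + u) / (1 + m) - 1 :=
      log_le_sub_one_of_pos (by apply div_pos <;> linarith)
    have h2 : log ((1 - m) / (1 - u)) ≤ (1 - m) / (1 - u) - 1 :=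
      log_le_sub_one_of_pos (by apply div_pos <;> linarith)
    have hu' : 0 < 1 - u := by linarith
    have hm' : 0 < 1 + m := by linarith
    rw [e0]
    have h3 : (1 - u) * ((log ((1 + u) / (1 + m)) + log ((1 - m) / (1 - u))) / 2)
        ≤ (1 - u) * ((((1 + u) / (1 + m) - 1) + ((1 - m) / (1 - u) - 1)) / 2) := by
      apply mul_le_mul_of_nonneg_left _ hu'.le
      linarith
    refine h3.trans ?_
    have h4 : (1 - u) * ((((1 + u) / (1 + m) - 1) + ((1 - m) / (1 - u) - 1)) / 2)
        = (u - m) * (2 + m - u) / (2 * (1 + m)) := by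
      field_simp
      ring
    rw [h4, div_le_div_iff₀ (by positivity) hm']
    nlinarith [mul_pos (sub_pos.2 hmu) (sub_pos.2 hmu)]

lemma aux_left {v m : ℝ} (hv : -1 < v) (hvm : v < m) (hm : m < 1) :
    (m - v) / (1 + m) < (1 - v) * (ath m - ath v) := by
  have e0 : ath m - ath v = (- log ((1 + v) / (1 + m)) - log ((1 - m) / (1 - v))) / 2 := by
    unfold ath
    rw [log_div (by linarith) (by linarith), log_div (by linarith) (by linarith)]
    ring
  have h1 : log ((1 + v) / (1 + m)) ≤ (1 + v) / (1 + m) - 1 :=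
    log_le_sub_one_of_pos (by apply div_pos <;> linarith)
  have h2 : log ((1 - m) / (1 - v)) ≤ (1 - m) / (1 - v) - 1 :=
    log_le_sub_one_of_pos (by apply div_pos <;> linarith)
  have hv' : 0 < 1 - v := by linarith
  have hm' : 0 < 1 + m := by linarith
  rw [e0]
  have h3 : (1 - v) * ((-((1 + v) / (1 + m) - 1) - ((1 - m) / (1 - v) - 1)) / 2)
      ≤ (1 - v) * ((- log ((1 + v) / (1 + m)) - log ((1 - m) / (1 - v))) / 2) := by
    apply mul_le_mul_of_nonneg_left _ hv'.le
    linarith
  refine lt_of_lt_of_le ?_ h3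
  have h4 : (1 - v) * ((-((1 + v) / (1 + m) - 1) - ((1 - m) / (1 - v) - 1)) / 2)
      = (m - v) * (2 + m - v) / (2 * (1 + m)) := by
    field_simp
    ring
  rw [h4, div_lt_div_iff₀ hm' (by positivity)]
  nlinarith [mul_pos (sub_pos.2 hvm) (sub_pos.2 hvm), mul_pos (mul_pos (sub_pos.2 hvm) (sub_pos.2 hvm)) hm']

lemma K_right_neg {p r h a b : ℝ} (hp : 0 < p) (hr : 0 < r) (hpr : p + r = 1)
    (hh : 0 < h) (hh1 : h < 1)
    (ha : h ^ 2 + a ^ 2 ≤ 1) (hb : h ^ 2 + b ^ 2 ≤ 1) (hab : 0 < a + b) :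
    K p r h a b (arcsin h) < 0 := by
  set R := √(1 - h ^ 2) with hR
  have hR0 : 0 < 1 - h ^ 2 := by nlinarith
  have hRpos : 0 < R := sqrt_pos.2 hR0
  have hR2 : R ^ 2 = 1 - h ^ 2 := sq_sqrt hR0.le
  have hs : sin (arcsin h) = h := sin_arcsin (by linarith) hh1.le
  have hc : cos (arcsin h) = R := cos_arcsin h
  have haR : a ≤ R := by
    have : a ^ 2 ≤ R ^ 2 := by linarith
    exact le_of_abs_le (abs_le_of_sq_le_sq this hRpos.le)
  have hbR : b ≤ R := by
    have : b ^ 2 ≤ R ^ 2 := by linarith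
    exact le_of_abs_le (abs_le_of_sq_le_sq this hRpos.le)
  have hbR' : 0 < R + b := by linarith
  set u := cu h a (arcsin h) with hu
  set v := cu h (-b) (arcsin h) with hv
  have eu : u = 1 - R * (R - a) := by
    rw [hu]; unfold cu; rw [hs, hc]; nlinarith
  have ev : v = 1 - R * (R + b) := by
    rw [hv]; unfold cu; rw [hs, hc]; nlinarith
  have eu' : cu' h a (arcsin h) = h / R * (1 - u) := by
    rw [eu]; unfold cu'; rw [hs, hc]; field_simp; ring
  have ev' : cu' h (-b) (arcsin h) = h / R * (1 - v) := by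
    rw [ev]; unfold cu'; rw [hs, hc]; field_simp; ring
  have hu1 : u ≤ 1 := by rw [eu]; nlinarith
  have hv1 : v < 1 := by rw [ev]; nlinarith
  have hv2 : -1 < v := by
    rw [ev]
    have : R * b ≤ R * R := mul_le_mul_of_nonneg_left hbR hRpos.le
    nlinarith
  have hvu : v < u := by rw [eu, ev]; nlinarith
  set m := p * u + r * v with hm
  have hr' : r = 1 - p := by linarith
  have hmv : v < m := by
    have : m - v = p * (u - v) := by rw [hm, hr']; ring
    have := mul_pos hp (sub_pos.2 hvu)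
    linarith
  have hmu : m < u := by
    have : u - m = r * (u - v) := by rw [hm, hr']; ring
    have := mul_pos hr (sub_pos.2 hvu)
    linarith
  have h1 := aux_right (by linarith) hmu hu1
  have h2 := aux_left hv2 hmv (by linarith)
  unfold K
  rw [← cu_mix hpr, ← cu'_mix hpr, ← hu, ← hv, ← hm, eu', ev']
  have h3 : p * (h / R * (1 - u) * ath u) + r * (h / R * (1 - v) * ath v)
      - (p * (h / R * (1 - u)) + r * (h / R * (1 - v))) * ath m
      = h / R * (p * ((1 - u) * (ath u - ath m)) - r * ((1 - v) * (ath m - ath v))) := by ring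
  rw [h3]
  have h4 : p * ((1 - u) * (ath u - ath m)) < r * ((1 - v) * (ath m - ath v)) := by
    have h5 : p * ((1 - u) * (ath u - ath m)) ≤ p * ((u - m) / (1 + m)) :=
      mul_le_mul_of_nonneg_left h1 hp.le
    have h6 : r * ((m - v) / (1 + m)) < r * ((1 - v) * (ath m - ath v)) :=
      mul_lt_mul_of_pos_left h2 hr
    have h7 : p * ((u - m) / (1 + m)) = r * ((m - v) / (1 + m)) := by
      have : p * (u - m) = r * (m - v) := by rw [hm, hr']; ring
      rw [← mul_div_assoc, ← mul_div_assoc, this]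
    linarith
  exact mul_neg_of_pos_of_neg (by positivity) (by linarith)

lemma g_neg (z : ℝ) : g (-z) = g z := by
  unfold g
  rw [sub_neg_eq_add, ← sub_eq_add_neg]
  ring

lemma J_neg_arg (p r h a b t : ℝ) : J p r h a b (-t) = J r p h b a t := by
  have e1 : ∀ a, cu h a (-t) = - cu h (-a) t := by
    intro a; unfold cu; rw [sin_neg, cos_neg]; ring
  unfold J
  rw [e1, e1, e1, g_neg, g_neg, g_neg, neg_neg]
  have e3 : -(p * a - r * b) = r * b - p * a := by ring
  rw [e3]
  ring

lemma J_pc_right {p r h a b x y : ℝ} (hp : 0 < p) (hr : 0 < r) (hpr : p + r = 1)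
    (hh : 0 < h) (hh1 : h < 1)
    (ha : h ^ 2 + a ^ 2 ≤ 1) (hb : h ^ 2 + b ^ 2 ≤ 1) (hab : 0 < a + b)
    (hx : -arcsin h ≤ x) (hxy : x < y) (hy : y ≤ arcsin h) (hK : K p r h a b x ≤ 0) :
    J p r h a b y ≤ J p r h a b x := by
  have hx' : -arcsin h < x := by
    rcases hx.eq_or_lt with h1 | h1
    · exfalso
      rw [← h1, K_neg_arg] at hK
      have := K_right_neg hr hp (by linarith) hh hh1 hb ha (by linarith : 0 < b + a)
      linarith
    · exact h1
  have hanti : AntitoneOn (J p r h a b) (Icc x y) := by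
    apply antitoneOn_of_deriv_nonpos (convex_Icc x y)
    · exact fun t _ => (hasDerivAt_J hp.le hr.le hpr ha hb t).continuousAt.continuousWithinAt
    · exact fun t _ =>
        (hasDerivAt_J hp.le hr.le hpr ha hb t).differentiableAt.differentiableWithinAt
    · intro t ht
      rw [interior_Icc] at ht
      rw [(hasDerivAt_J hp.le hr.le hpr ha hb t).deriv]
      exact K_fence hp hr hpr hh hh1 ha hb hab hx' ht.1.le (ht.2.trans_le hy) hK
  exact hanti (left_mem_Icc.2 hxy.le) (right_mem_Icc.2 hxy.le) hxy.le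

/-- Pseudo-concavity of `J` on the arc. -/
lemma J_pc {p r h a b x y : ℝ} (hp : 0 < p) (hr : 0 < r) (hpr : p + r = 1)
    (hh : 0 < h) (hh1 : h < 1)
    (ha : h ^ 2 + a ^ 2 ≤ 1) (hb : h ^ 2 + b ^ 2 ≤ 1) (hab : 0 < a + b)
    (hx : x ∈ Icc (-arcsin h) (arcsin h)) (hy : y ∈ Icc (-arcsin h) (arcsin h))
    (hK : K p r h a b x * (y - x) ≤ 0) : J p r h a b y ≤ J p r h a b x := by
  rcases lt_trichotomy x y with hxy | hxy | hxy
  · apply J_pc_right hp hr hpr hh hh1 ha hb hab hx.1 hxy hy.2
    by_contra hcon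
    push Not at hcon
    have := mul_pos hcon (sub_pos.2 hxy)
    linarith
  · rw [hxy]
  · have h1 : 0 ≤ K p r h a b x := by
      by_contra hcon
      push Not at hcon
      have := mul_pos_of_neg_of_neg hcon (sub_neg.2 hxy)
      linarith
    have h2 := J_pc_right (x := -x) (y := -y) hr hp (by linarith) hh hh1 hb ha
      (by linarith : 0 < b + a) (by linarith [hx.2]) (by linarith) (by linarith [hy.1])
      (by rw [K_neg_arg]; linarith)
    rwa [J_neg_arg, J_neg_arg] at h2

end Pool.Agent.helper83.MICalc
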