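import Mathlib

/-!
Elementary hyperbolic inequalities used in the proof of pseudo-concavity of the mutual
information of a qubit dichotomy.
-/

namespace Pool.Agent.helper83.MIHyp

open Real Set

lemma nonneg_of_deriv {f f' : ℝ → ℝ} (hf : ∀ x, HasDerivAt f (f' x) x) (h0 : 0 ≤ f 0)
    (h : ∀ x, 0 < x → 0 ≤ f' x) {x : ℝ} (hx : 0 ≤ x) : 0 ≤ f x := by
  have hm : MonotoneOn f (Ici 0) := by
    apply monotoneOn_of_deriv_nonneg (convex_Ici 0)
    · exact fun y _ => (hf y).continuousAt.continuousWithinAt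
    · exact fun y _ => (hf y).differentiableAt.differentiableWithinAt
    · intro y hy
      rw [interior_Ici] at hy
      rw [(hf y).deriv]
      exact h y hy
  exact h0.trans (hm (mem_Ici.2 le_rfl) (mem_Ici.2 hx) hx)

lemma pos_of_deriv {f f' : ℝ → ℝ} (hf : ∀ x, HasDerivAt f (f' x) x) (h0 : 0 ≤ f 0)
    (h : ∀ x, 0 < x → 0 < f' x) {x : ℝ} (hx : 0 < x) : 0 < f x := by
  have hm : StrictMonoOn f (Ici 0) := by
    apply strictMonoOn_of_deriv_pos (convex_Ici 0)
    · exact fun y _ => (hf y).continuousAt.continuousWithinAt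
    · intro y hy
      rw [interior_Ici] at hy
      rw [(hf y).deriv]
      exact h y hy
  exact h0.trans_lt (hm (mem_Ici.2 le_rfl) (mem_Ici.2 hx.le) hx)

/-- `sinh t < t cosh t` for `t > 0`. -/
lemma sinh_lt_mul_cosh {t : ℝ} (ht : 0 < t) : sinh t < t * cosh t := by
  have := pos_of_deriv (f := fun t => t * cosh t - sinh t) (f' := fun t => t * sinh t)
    (fun x => by
      have h := ((hasDerivAt_id' x).fun_mul (Real.hasDerivAt_cosh x)).fun_sub
        (Real.hasDerivAt_sinh x)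
      exact h.congr_deriv (by ring)) (by simp)
        (fun x hx => mul_pos hx (sinh_pos_iff.2 hx)) ht
  linarith

lemma sinh_le_mul_cosh {t : ℝ} (ht : 0 ≤ t) : sinh t ≤ t * cosh t := by
  rcases ht.eq_or_lt with rfl | h
  · simp
  · exact (sinh_lt_mul_cosh h).le

/-- `3 t cosh t ≤ (3 + t²) sinh t`. -/
lemma three_mul_cosh_le {t : ℝ} (ht : 0 ≤ t) : 3 * t * cosh t ≤ (3 + t ^ 2) * sinh t := by
  have := nonneg_of_deriv (f := fun t => (3 + t ^ 2) * sinh t - 3 * t * cosh t)
    (f' := fun t => t * (t * cosh t - sinh t))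
    (fun x => by
      have h1 : HasDerivAt (fun t : ℝ => 3 + t ^ 2) (2 * x) x := by
        simpa using (hasDerivAt_pow 2 x).const_add 3
      have h2 : HasDerivAt (fun t : ℝ => 3 * t) 3 x := by
        simpa using (hasDerivAt_id x).const_mul (3 : ℝ)
      have h := (h1.fun_mul (Real.hasDerivAt_sinh x)).fun_sub
        (h2.fun_mul (Real.hasDerivAt_cosh x))
      exact h.congr_deriv (by ring)) (by simp)
    (fun x hx => mul_nonneg hx.le (by linarith [sinh_le_mul_cosh hx.le])) ht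
  linarith

/-- `3 sinh s ≤ s (2 + cosh s)`. -/
lemma three_sinh_le {s : ℝ} (hs : 0 ≤ s) : 3 * sinh s ≤ s * (2 + cosh s) := by
  have h1 : ∀ x : ℝ, 0 < x → 0 ≤ 2 - 2 * cosh x + x * sinh x := by
    intro x hx
    exact nonneg_of_deriv (f := fun t => 2 - 2 * cosh t + t * sinh t)
      (f' := fun t => t * cosh t - sinh t)
      (fun x => by
        have h := (((Real.hasDerivAt_cosh x).const_mul 2).const_sub 2).fun_add
          ((hasDerivAt_id' x).fun_mul (Real.hasDerivAt_sinh x))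
        exact h.congr_deriv (by ring)) (by simp)
        (fun x hx => by linarith [sinh_le_mul_cosh hx.le]) hx.le
  have := nonneg_of_deriv (f := fun t => t * (2 + cosh t) - 3 * sinh t)
    (f' := fun t => 2 - 2 * cosh t + t * sinh t)
    (fun x => by
      have h := ((hasDerivAt_id' x).fun_mul ((Real.hasDerivAt_cosh x).const_add 2)).fun_sub
        ((Real.hasDerivAt_sinh x).const_mul 3)
      exact h.congr_deriv (by ring)) (by simp) h1 hs
  linarith

/-- `t + t³/6 ≤ sinh t`. -/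
lemma cubic_le_sinh {t : ℝ} (ht : 0 ≤ t) : t + t ^ 3 / 6 ≤ sinh t := by
  have h1 : ∀ x : ℝ, 0 < x → 0 ≤ cosh x - 1 - x ^ 2 / 2 := by
    intro x hx
    exact nonneg_of_deriv (f := fun t => cosh t - 1 - t ^ 2 / 2)
      (f' := fun t => sinh t - t)
      (fun x => by
        have h := ((Real.hasDerivAt_cosh x).sub_const 1).fun_sub
          ((hasDerivAt_pow 2 x).div_const 2)
        exact h.congr_deriv (by norm_num)) (by simp)
        (fun x hx => by linarith [self_le_sinh_iff.2 hx.le]) hx.le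
  have := nonneg_of_deriv (f := fun t => sinh t - t - t ^ 3 / 6)
    (f' := fun t => cosh t - 1 - t ^ 2 / 2)
    (fun x => by
      have h := ((Real.hasDerivAt_sinh x).fun_sub (hasDerivAt_id' x)).fun_sub
        ((hasDerivAt_pow 3 x).div_const 6)
      exact h.congr_deriv (by norm_num; ring)) (by simp) h1 ht
  linarith

/-- `2 (e^s - 1) < s (e^s + 1)`. -/
lemma two_exp_lt {s : ℝ} (hs : 0 < s) : 2 * (exp s - 1) < s * (exp s + 1) := by
  have h1 : ∀ x : ℝ, 0 < x → 0 < 1 + (x - 1) * exp x := by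
    intro x hx
    exact pos_of_deriv (f := fun t => 1 + (t - 1) * exp t)
      (f' := fun t => t * exp t)
      (fun x => by
        have h := (((hasDerivAt_id' x).sub_const 1).fun_mul
          (Real.hasDerivAt_exp x)).const_add 1
        exact h.congr_deriv (by ring)) (by simp)
        (fun x hx => by positivity) hx
  have := pos_of_deriv (f := fun t => t * (exp t + 1) - 2 * (exp t - 1))
    (f' := fun t => 1 + (t - 1) * exp t)
    (fun x => by
      have h := ((hasDerivAt_id' x).fun_mul ((Real.hasDerivAt_exp x).add_const 1)).fun_sub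
        (((Real.hasDerivAt_exp x).sub_const 1).const_mul 2)
      exact h.congr_deriv (by ring)) (by simp) h1 hs
  linarith


/-- Comparison on `[B, A] ⊂ (0, ∞)` from a derivative sign. -/
lemma le_of_deriv_nonneg {f f' : ℝ → ℝ} {B A : ℝ} (hB : 0 < B) (hBA : B ≤ A)
    (hf : ∀ x, 0 < x → HasDerivAt f (f' x) x)
    (h : ∀ x, 0 < x → x ≤ A → 0 ≤ f' x) : f B ≤ f A := by
  have hm : MonotoneOn f (Icc B A) := by
    apply monotoneOn_of_deriv_nonneg (convex_Icc B A)
    · exact fun y hy => (hf y (hB.trans_le hy.1)).continuousAt.continuousWithinAt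
    · intro y hy
      rw [interior_Icc] at hy
      exact (hf y (hB.trans hy.1)).differentiableAt.differentiableWithinAt
    · intro y hy
      rw [interior_Icc] at hy
      rw [(hf y (hB.trans hy.1)).deriv]
      exact h y (hB.trans hy.1) hy.2.le
  exact hm (left_mem_Icc.2 hBA) (right_mem_Icc.2 hBA) hBA

/-- `log (sinh t / t)`, written as a difference. -/
noncomputable def F (t : ℝ) : ℝ := log (sinh t) - log t

/-- `t coth t`. -/
noncomputable def C (t : ℝ) : ℝ := t * (cosh t / sinh t)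

lemma hasDerivAt_F {t : ℝ} (ht : 0 < t) : HasDerivAt F (cosh t / sinh t - 1 / t) t := by
  have hs : sinh t ≠ 0 := (sinh_pos_iff.2 ht).ne'
  have h := ((Real.hasDerivAt_sinh t).log hs).fun_sub (Real.hasDerivAt_log ht.ne')
  exact h.congr_deriv (by ring)

lemma hasDerivAt_C {t : ℝ} (ht : 0 < t) :
    HasDerivAt C (cosh t / sinh t - t / sinh t ^ 2) t := by
  have hs : sinh t ≠ 0 := (sinh_pos_iff.2 ht).ne'
  have h := (hasDerivAt_id' t).fun_mul
    ((Real.hasDerivAt_cosh t).fun_div (Real.hasDerivAt_sinh t) hs)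
  refine h.congr_deriv ?_
  have := cosh_sq t
  field_simp
  rw [this]
  ring

lemma ell_nonneg {t : ℝ} (ht : 0 < t) : 0 ≤ cosh t / sinh t - 1 / t := by
  have hs : 0 < sinh t := sinh_pos_iff.2 ht
  rw [sub_nonneg, div_le_div_iff₀ ht hs]
  linarith [sinh_le_mul_cosh ht.le]

lemma ell_le {t : ℝ} (ht : 0 < t) : cosh t / sinh t - 1 / t ≤ t / 3 := by
  have hs : 0 < sinh t := sinh_pos_iff.2 ht
  have h := three_mul_cosh_le ht.le
  rw [sub_le_iff_le_add, div_le_iff₀ hs]
  have : (t / 3 + 1 / t) * sinh t = (3 + t ^ 2) * sinh t / (3 * t) := by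
    field_simp
    ring
  rw [this, le_div_iff₀ (by positivity)]
  linarith

lemma F_le {A B : ℝ} (hB : 0 < B) (hBA : B ≤ A) : F B ≤ F A :=
  le_of_deriv_nonneg hB hBA (fun _ hx => hasDerivAt_F hx) (fun _ hx _ => ell_nonneg hx)

lemma F_sub_le {A B : ℝ} (hB : 0 < B) (hBA : B ≤ A) : F A - F B ≤ (A ^ 2 - B ^ 2) / 6 := by
  have := le_of_deriv_nonneg (f := fun t => t ^ 2 / 6 - F t)
    (f' := fun t => t / 3 - (cosh t / sinh t - 1 / t)) hB hBA
    (fun x hx => (((hasDerivAt_pow 2 x).div_const 6).fun_sub (hasDerivAt_F hx)).congr_deriv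
      (by norm_num; ring)) (fun x hx _ => by linarith [ell_le hx])
  linarith

lemma C_sub_le {A B : ℝ} (hB : 0 < B) (hBA : B ≤ A) : C A - C B ≤ (A ^ 2 - B ^ 2) / 3 := by
  have := le_of_deriv_nonneg (f := fun t => t ^ 2 / 3 - C t)
    (f' := fun t => 2 * t / 3 - (cosh t / sinh t - t / sinh t ^ 2)) hB hBA
    (fun x hx => (((hasDerivAt_pow 2 x).div_const 3).fun_sub (hasDerivAt_C hx)).congr_deriv
      (by norm_num)) (fun x hx _ => by
        have hs : 0 < sinh x := sinh_pos_iff.2 hx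
        have h := three_sinh_le (s := 2 * x) (by positivity)
        rw [sinh_two_mul, cosh_two_mul] at h
        have h2 := cosh_sq x
        have h3 : cosh x / sinh x - x / sinh x ^ 2 = (cosh x * sinh x - x) / sinh x ^ 2 := by
          field_simp
        rw [h3, sub_nonneg, div_le_iff₀ (by positivity)]
        rw [h2] at h
        nlinarith)
  linarith

lemma ratio_le {t : ℝ} (ht : 0 < t) :
    (6 + t ^ 2) / (3 + t ^ 2) * (cosh t / sinh t - 1 / t) ≤ cosh t / sinh t - t / sinh t ^ 2 := by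
  have hs : 0 < sinh t := sinh_pos_iff.2 ht
  have h1 := ell_le ht
  have h2 : t / sinh t ^ 2 ≤ 1 / t - t / (3 + t ^ 2) := by
    have h3 : t ^ 2 * (1 + t ^ 2 / 3) ≤ sinh t ^ 2 := by
      have h4 := cubic_le_sinh ht.le
      have h5 : (t + t ^ 3 / 6) ^ 2 ≤ sinh t ^ 2 := by gcongr
      nlinarith [sq_nonneg (t ^ 3)]
    have h6 : 1 / t - t / (3 + t ^ 2) = 3 / (t * (3 + t ^ 2)) := by
      field_simp
      ring
    rw [h6, div_le_div_iff₀ (by positivity) (by positivity)]
    nlinarith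
  have h7 : (6 + t ^ 2) / (3 + t ^ 2) * (cosh t / sinh t - 1 / t)
      = (cosh t / sinh t - 1 / t) + 3 / (3 + t ^ 2) * (cosh t / sinh t - 1 / t) := by
    field_simp
    ring
  have h8 : 3 / (3 + t ^ 2) * (cosh t / sinh t - 1 / t) ≤ 3 / (3 + t ^ 2) * (t / 3) := by
    gcongr
  have h9 : 3 / (3 + t ^ 2) * (t / 3) = t / (3 + t ^ 2) := by field_simp
  linarith

lemma C_sub_ge {A B : ℝ} (hB : 0 < B) (hBA : B ≤ A) :
    (6 + A ^ 2) / (3 + A ^ 2) * (F A - F B) ≤ C A - C B := by
  have := le_of_deriv_nonneg (f := fun t => C t - (6 + A ^ 2) / (3 + A ^ 2) * F t)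
    (f' := fun t => (cosh t / sinh t - t / sinh t ^ 2) -
      (6 + A ^ 2) / (3 + A ^ 2) * (cosh t / sinh t - 1 / t)) hB hBA
    (fun x hx => ((hasDerivAt_C hx).fun_sub ((hasDerivAt_F hx).const_mul _)))
      (fun x hx hxA => by
        have h1 := ratio_le hx
        have h2 : (6 + A ^ 2) / (3 + A ^ 2) ≤ (6 + x ^ 2) / (3 + x ^ 2) := by
          have : x ^ 2 ≤ A ^ 2 := by gcongr
          rw [div_le_div_iff₀ (by positivity) (by positivity)]
          nlinarith
        have h3 := mul_le_mul_of_nonneg_right h2 (ell_nonneg hx)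
        linarith)
  linarith

lemma C_mono {A B : ℝ} (hB : 0 < B) (hBA : B ≤ A) : C B ≤ C A := by
  have h := C_sub_ge hB hBA
  have h2 := F_le hB hBA
  have : 0 ≤ (6 + A ^ 2) / (3 + A ^ 2) * (F A - F B) := by
    apply mul_nonneg (by positivity)
    linarith
  linarith

lemma one_le_C {B : ℝ} (hB : 0 < B) : 1 ≤ C B := by
  have hs : 0 < sinh B := sinh_pos_iff.2 hB
  unfold C
  rw [← mul_div_assoc, le_div_iff₀ hs]
  linarith [sinh_le_mul_cosh hB.le]

/-- `A (coth A - 1) ≤ 1`, in the form `C A - A ≤ 1`. -/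
lemma C_sub_self_le {A : ℝ} (hA : 0 < A) : C A - A ≤ 1 := by
  have hs : 0 < sinh A := sinh_pos_iff.2 hA
  have h1 : cosh A - sinh A = exp (-A) := cosh_sub_sinh A
  have h2 : A ≤ sinh A * exp A := by
    have h3 : A ≤ sinh A := self_le_sinh_iff.2 hA.le
    have h4 : 1 ≤ exp A := one_le_exp hA.le
    nlinarith
  have h5 : A * exp (-A) ≤ sinh A := by
    rw [exp_neg, ← div_eq_mul_inv, div_le_iff₀ (exp_pos A)]
    exact h2
  unfold C
  have h6 : A * (cosh A / sinh A) - A = A * (cosh A - sinh A) / sinh A := by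
    field_simp
  rw [h6, h1, div_le_one hs]
  exact h5


/-- `q(A,B) = (A / sinh A) / (B / sinh B)`. -/
noncomputable def q (A B : ℝ) : ℝ := A * sinh B / (B * sinh A)

lemma q_eq_exp {A B : ℝ} (hA : 0 < A) (hB : 0 < B) : q A B = exp (-(F A - F B)) := by
  have hsA : 0 < sinh A := sinh_pos_iff.2 hA
  have hsB : 0 < sinh B := sinh_pos_iff.2 hB
  unfold q F
  rw [show -(log (sinh A) - log A - (log (sinh B) - log B))
    = (log A + log (sinh B)) - (log B + log (sinh A)) by ring,
    ← log_mul hA.ne' hsB.ne', ← log_mul hB.ne' hsA.ne', exp_sub, exp_log (by positivity),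
    exp_log (by positivity)]

/-- The inequality `G₊ < 0`. -/
lemma G_plus {A B : ℝ} (hB : 0 < B) (hBA : B ≤ A) :
    2 * (exp (A + B) - q A B) ^ 2 < (exp (A + B) ^ 2 - 1) * ((A + B) + (C A - C B)) := by
  have hA : 0 < A := hB.trans_le hBA
  rw [q_eq_exp hA hB]
  set S := A + B with hS
  set L := F A - F B with hL
  set M := C A - C B with hM
  have hS0 : 0 < S := by positivity
  have hE1 : 1 + S ≤ exp S := by linarith [add_one_le_exp S]
  have hE2 : 1 + S + S ^ 2 / 2 ≤ exp S := quadratic_le_exp_of_nonneg hS0.le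
  set E := exp S with hE
  have hL0 : 0 ≤ L := by have := F_le hB hBA; linarith
  have hL1 : L ≤ S ^ 2 / 6 := by
    have := F_sub_le hB hBA
    have h2 : (A ^ 2 - B ^ 2) / 6 ≤ S ^ 2 / 6 := by
      rw [hS]; nlinarith
    linarith
  have hq1 : 1 - L ≤ exp (-L) := by linarith [add_one_le_exp (-L)]
  have hq2 : exp (-L) ≤ 1 := by rw [exp_le_one_iff]; linarith
  have h1 : 2 * (E - exp (-L)) ^ 2 ≤ 2 * (E - 1 + L) ^ 2 := by
    have ha : 0 ≤ E - exp (-L) := by linarith
    have hb : E - exp (-L) ≤ E - 1 + L := by linarith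
    have := pow_le_pow_left₀ ha hb 2
    linarith
  have h2 : 2 * (E - 1) ^ 2 < (E ^ 2 - 1) * S := by
    have h3 := two_exp_lt hS0
    rw [← hE] at h3
    have h4 : 0 < E - 1 := by linarith
    nlinarith
  have hc : (6 + S ^ 2) / (3 + S ^ 2) ≤ (6 + A ^ 2) / (3 + A ^ 2) := by
    have : A ^ 2 ≤ S ^ 2 := by
      have : A ≤ S := by linarith
      gcongr
    rw [div_le_div_iff₀ (by positivity) (by positivity)]
    nlinarith
  have h3 : 4 + S / 3 ≤ (E + 1) * ((6 + A ^ 2) / (3 + A ^ 2)) := by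
    have h4 : 4 + S / 3 ≤ (2 + S + S ^ 2 / 2) * ((6 + S ^ 2) / (3 + S ^ 2)) := by
      rw [← mul_div_assoc, le_div_iff₀ (by positivity)]
      have : 0 ≤ 5 * S + S ^ 2 + 2 / 3 * S ^ 3 + S ^ 4 / 2 := by positivity
      nlinarith
    have h5 : (2 + S + S ^ 2 / 2) * ((6 + S ^ 2) / (3 + S ^ 2))
        ≤ (E + 1) * ((6 + A ^ 2) / (3 + A ^ 2)) := by
      apply mul_le_mul _ hc (by positivity) (by linarith)
      linarith
    linarith
  have h6 := C_sub_ge hB hBA
  have h7 : 4 * (E - 1) * L + 2 * L ^ 2 ≤ (E ^ 2 - 1) * M := by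
    have h8 : 2 * L ^ 2 ≤ L * ((E - 1) * (S / 3)) := by
      have h9 : 2 * L ≤ (E - 1) * (S / 3) := by
        have : S * (S / 3) ≤ (E - 1) * (S / 3) := by
          apply mul_le_mul_of_nonneg_right (by linarith) (by positivity)
        nlinarith
      nlinarith
    have h10 : 4 * (E - 1) * L + 2 * L ^ 2 ≤ L * (E - 1) * (4 + S / 3) := by nlinarith
    have h11 : L * (E - 1) * (4 + S / 3)
        ≤ L * (E - 1) * ((E + 1) * ((6 + A ^ 2) / (3 + A ^ 2))) := by
      apply mul_le_mul_of_nonneg_left h3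
      apply mul_nonneg hL0 (by linarith)
    have h12 : L * (E - 1) * ((E + 1) * ((6 + A ^ 2) / (3 + A ^ 2)))
        = (E ^ 2 - 1) * ((6 + A ^ 2) / (3 + A ^ 2) * L) := by ring
    have h13 : (E ^ 2 - 1) * ((6 + A ^ 2) / (3 + A ^ 2) * L) ≤ (E ^ 2 - 1) * M := by
      apply mul_le_mul_of_nonneg_left h6
      nlinarith
    linarith
  nlinarith

/-- `q e^S - 1 = (S + M) e^B sinh B / B`. -/
lemma q_exp_sub_one {A B : ℝ} (hA : 0 < A) (hB : 0 < B) :
    q A B * exp (A + B) - 1 = ((A + B) + (C A - C B)) * (exp B * (sinh B / B)) := by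
  have hsA : 0 < sinh A := sinh_pos_iff.2 hA
  have hsB : 0 < sinh B := sinh_pos_iff.2 hB
  have h1 : exp A = cosh A + sinh A := (cosh_add_sinh A).symm
  have h2 : exp B = cosh B + sinh B := (cosh_add_sinh B).symm
  have h3 := cosh_sq B
  unfold q C
  rw [exp_add, h1, h2]
  field_simp
  ring_nf
  rw [h3]
  ring

/-- `(1 + D/3)² ≤ e^D (1 - D/3)` for `0 ≤ D ≤ 57/40`. -/
lemma small_D {D : ℝ} (h0 : 0 ≤ D) (h1 : D ≤ 57 / 40) :
    (1 + D / 3) ^ 2 ≤ exp D * (1 - D / 3) := by
  have h2 := Real.sum_le_exp_of_nonneg h0 7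
  simp only [Finset.sum_range_succ, Finset.sum_range_zero, Nat.factorial] at h2
  norm_num at h2
  have h3 : 0 ≤ 1 - D / 3 := by linarith
  have h4 := mul_le_mul_of_nonneg_right h2 h3
  refine le_trans ?_ h4
  have e2 : D ^ 2 ≤ (57 / 40) ^ 2 := by gcongr
  have e3 : D ^ 3 ≤ (57 / 40) ^ 3 := by gcongr
  have e4 : D ^ 4 ≤ (57 / 40) ^ 4 := by gcongr
  have e5 : D ^ 5 ≤ (57 / 40) ^ 5 := by gcongr
  have h5 : 0 ≤ 1 / 18 - D ^ 2 / 72 - D ^ 3 / 180 - D ^ 4 / 720 - D ^ 5 / 2160 := by
    norm_num at e2 e3 e4 e5 ⊢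
    linarith
  nlinarith [mul_nonneg (sq_nonneg D) h5]


/-- `sinh B / B ≤ sinh A / A`, cleared of denominators. -/
lemma sinhc_mono {A B : ℝ} (hB : 0 < B) (hBA : B ≤ A) : A * sinh B ≤ B * sinh A := by
  have hA : 0 < A := hB.trans_le hBA
  have h := F_le hB hBA
  unfold F at h
  have hsA : 0 < sinh A := sinh_pos_iff.2 hA
  have hsB : 0 < sinh B := sinh_pos_iff.2 hB
  have h2 : log (A * sinh B) ≤ log (B * sinh A) := by
    rw [log_mul hA.ne' hsB.ne', log_mul hB.ne' hsA.ne']
    linarith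
  exact (log_le_log_iff (by positivity) (by positivity)).1 h2

lemma exp_two_mul_sub_one (S : ℝ) : exp S ^ 2 - 1 = 2 * exp S * sinh S := by
  rw [sinh_eq, exp_neg]
  have := exp_pos S
  field_simp

/-- The inequality `G₋ ≤ 0`, case `A - B ≤ 57/40`. -/
lemma G_minus_small {A B : ℝ} (hB : 0 < B) (hBA : B ≤ A) (hD : A - B ≤ 57 / 40) :
    2 * (q A B * exp (A + B) - 1) ^ 2 ≤ (exp (A + B) ^ 2 - 1) * ((A + B) - (C A - C B)) := by
  have hA : 0 < A := hB.trans_le hBA
  have hsA : 0 < sinh A := sinh_pos_iff.2 hA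
  have hsB : 0 < sinh B := sinh_pos_iff.2 hB
  rw [q_exp_sub_one hA hB]
  have hM1 := C_sub_le hB hBA
  have hM0 := C_mono hB hBA
  set M := C A - C B with hM
  set S := A + B with hS
  set D := A - B with hDdef
  have hS0 : 0 < S := by positivity
  have hD0 : 0 ≤ D := by linarith
  have hM2 : M ≤ S * (D / 3) := by
    have : (A ^ 2 - B ^ 2) / 3 = S * (D / 3) := by rw [hS, hDdef]; ring
    linarith
  have hsmall := small_D hD0 hD
  have h1 : (S + M) ^ 2 ≤ (S * (1 + D / 3)) ^ 2 := by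
    apply pow_le_pow_left₀ (by linarith)
    linarith
  have h2 : S * (1 - D / 3) ≤ S - M := by linarith
  have hsS : 0 < sinh S := sinh_pos_iff.2 hS0
  -- `S (sinh B / B)² ≤ sinh S`
  have h3 : S * (sinh B / B) ^ 2 ≤ sinh S := by
    have h4 : S * sinh (2 * B) ≤ (2 * B) * sinh S := sinhc_mono (by positivity) (by linarith)
    rw [sinh_two_mul] at h4
    have h5 : sinh B ≤ B * cosh B := sinh_le_mul_cosh hB.le
    have h6 : S * sinh B ^ 2 ≤ B ^ 2 * sinh S := by
      have h7 : S * sinh B * sinh B ≤ S * sinh B * (B * cosh B) := by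
        apply mul_le_mul_of_nonneg_left h5; positivity
      have h8 : S * sinh B * (B * cosh B) ≤ B * (B * sinh S) := by nlinarith
      nlinarith
    rw [div_pow, ← mul_div_assoc, div_le_iff₀ (by positivity)]
    linarith
  rw [exp_two_mul_sub_one]
  have hE : exp S = exp B ^ 2 * exp D := by
    rw [← exp_nat_mul, ← exp_add]
    congr 1
    rw [hS, hDdef]
    push_cast
    ring
  have h9 : 2 * ((S + M) * (exp B * (sinh B / B))) ^ 2
      ≤ 2 * (S * (1 + D / 3)) ^ 2 * (exp B * (sinh B / B)) ^ 2 := by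
    rw [mul_pow, ← mul_assoc]
    gcongr
  have h10 : 2 * (S * (1 + D / 3)) ^ 2 * (exp B * (sinh B / B)) ^ 2
      = 2 * S * exp B ^ 2 * ((1 + D / 3) ^ 2 * (S * (sinh B / B) ^ 2)) := by ring
  have h11 : 2 * S * exp B ^ 2 * ((1 + D / 3) ^ 2 * (S * (sinh B / B) ^ 2))
      ≤ 2 * S * exp B ^ 2 * ((exp D * (1 - D / 3)) * sinh S) := by
    apply mul_le_mul_of_nonneg_left _ (by positivity)
    apply mul_le_mul hsmall h3 (by positivity)
    apply mul_nonneg (exp_pos D).le
    linarith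
  have h12 : 2 * S * exp B ^ 2 * ((exp D * (1 - D / 3)) * sinh S)
      = 2 * exp S * sinh S * (S * (1 - D / 3)) := by
    rw [hE]; ring
  have h13 : 2 * exp S * sinh S * (S * (1 - D / 3)) ≤ 2 * exp S * sinh S * (S - M) := by
    apply mul_le_mul_of_nonneg_left h2
    positivity
  linarith

/-- `C t - t` is nonincreasing. -/
lemma C_sub_self_anti {A D : ℝ} (hD : 0 < D) (hDA : D ≤ A) : C A - A ≤ C D - D := by
  have := le_of_deriv_nonneg (f := fun t => t - C t)
    (f' := fun t => 1 - (cosh t / sinh t - t / sinh t ^ 2)) hD hDA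
    (fun x hx => ((hasDerivAt_id' x).fun_sub (hasDerivAt_C hx)))
      (fun x hx _ => by
        have hs : 0 < sinh x := sinh_pos_iff.2 hx
        have h3 : cosh x / sinh x - x / sinh x ^ 2 = (cosh x * sinh x - x) / sinh x ^ 2 := by
          field_simp
        rw [h3, sub_nonneg, div_le_one (by positivity)]
        have h4 : (cosh x - sinh x) * sinh x ≤ x := by
          have h5 : cosh x - sinh x = exp (-x) := cosh_sub_sinh x
          have h6 : exp (-x) ≤ cosh x := by
            have := cosh_sub_sinh x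
            linarith
          have h7 : sinh x ≤ x * exp x := by
            have h8 := sinh_le_mul_cosh hx.le
            have h9 : cosh x ≤ exp x := by
              have := cosh_add_sinh x
              linarith
            nlinarith
          rw [h5, exp_neg, mul_comm, ← div_eq_mul_inv, div_le_iff₀ (exp_pos x)]
          exact h7
        nlinarith)
  linarith

lemma C_sub_self_eq {D : ℝ} (hD : 0 < D) : C D - D = 2 * D / (exp (2 * D) - 1) := by
  have hs : 0 < sinh D := sinh_pos_iff.2 hD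
  have h2 : exp (2 * D) - 1 = 2 * exp D * sinh D := by
    rw [← exp_two_mul_sub_one, ← exp_nat_mul]
    push_cast
    rfl
  have h1 : cosh D - sinh D = exp (-D) := cosh_sub_sinh D
  have h3 : C D - D = D * (cosh D - sinh D) / sinh D := by
    unfold C
    field_simp
  rw [h3, h1, h2, exp_neg]
  have := exp_pos D
  field_simp


lemma exp_ge_17 : (17 : ℝ) ≤ exp (57 / 20) := by
  have h1 : exp (57 / 20 : ℝ) = exp 1 ^ 2 * exp (17 / 20) := by
    rw [← exp_nat_mul, ← exp_add]; norm_num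
  have h2 := exp_one_gt_d9
  have h3 := Real.sum_le_exp_of_nonneg (show (0:ℝ) ≤ 17 / 20 by norm_num) 5
  simp only [Finset.sum_range_succ, Finset.sum_range_zero, Nat.factorial] at h3
  norm_num at h3
  have h4 : (7.389 : ℝ) ≤ exp 1 ^ 2 := by nlinarith
  rw [h1]
  have h5 : (7.389 : ℝ) * (112097 / 48000 : ℝ) ≤ exp 1 ^ 2 * exp (17 / 20) := by
    apply mul_le_mul h4 _ (by norm_num) (by positivity)
    refine le_trans ?_ h3
    norm_num
  refine le_trans ?_ h5
  norm_num

lemma large_D {D : ℝ} (h : 57 / 40 ≤ D) :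
    2 * (1 + (C D + D) / 2) ^ 2 ≤ exp (2 * D) - 1 - 2 * D ∧
    2 * ((C D + D) - 1) ^ 2 ≤ exp (2 * D) - 1 - 2 * D ∧ C D - D ≤ 18 / 100 := by
  have hD : 0 < D := by linarith
  have hexp : 17 * (1 + (2 * D - 57 / 20) + (2 * D - 57 / 20) ^ 2 / 2) ≤ exp (2 * D) := by
    have h1 : exp (2 * D) = exp (57 / 20) * exp (2 * D - 57 / 20) := by
      rw [← exp_add]; congr 1; ring
    rw [h1]
    have h0 : 0 ≤ 2 * D - 57 / 20 := by linarith
    exact mul_le_mul exp_ge_17 (quadratic_le_exp_of_nonneg h0) (by positivity) (exp_pos _).le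
  have hpsi : C D - D ≤ 18 / 100 := by
    rw [C_sub_self_eq hD, div_le_iff₀ (by nlinarith)]
    nlinarith
  have hc1 : 1 ≤ C D := one_le_C hD
  set δ := 2 * D - 57 / 20 with hδ
  have hδ0 : 0 ≤ δ := by linarith
  have hDδ : D = δ / 2 + 57 / 40 := by linarith
  refine ⟨?_, ?_, hpsi⟩
  · have h1 : 1 + (C D + D) / 2 ≤ 2515 / 1000 + δ / 2 := by linarith
    have h2 : 0 ≤ 1 + (C D + D) / 2 := by linarith
    have h3 := pow_le_pow_left₀ h2 h1 2
    nlinarith
  · have h1 : (C D + D) - 1 ≤ 203 / 100 + δ := by linarith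
    have h2 : 0 ≤ (C D + D) - 1 := by linarith
    have h3 := pow_le_pow_left₀ h2 h1 2
    nlinarith

set_option maxHeartbeats 1000000 in
/-- The inequality `G₋ ≤ 0`, case `A - B ≥ 57/40`. -/
lemma G_minus_large {A B : ℝ} (hB : 0 < B) (hBA : B ≤ A) (hD : 57 / 40 ≤ A - B) :
    2 * (q A B * exp (A + B) - 1) ^ 2 ≤ (exp (A + B) ^ 2 - 1) * ((A + B) - (C A - C B)) := by
  have hA : 0 < A := hB.trans_le hBA
  have hsA : 0 < sinh A := sinh_pos_iff.2 hA
  have hsB : 0 < sinh B := sinh_pos_iff.2 hB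
  set D := A - B with hDdef
  have hD0 : 0 < D := by linarith
  obtain ⟨hl1, hl2, hl3⟩ := large_D hD
  have hanti := C_sub_self_anti hD0 (show D ≤ A by linarith)
  have hCB := one_le_C hB
  have hCD := one_le_C hD0
  -- `S - M ≥ 1 - ψ`
  have hSM : 1 - (C D - D) ≤ (A + B) - (C A - C B) := by linarith
  -- bound on `q e^S - 1`
  have hE2 : exp B * (sinh B / B) ≤ (exp B ^ 2 + 1) / 2 := by
    have h1 := sinh_le_mul_cosh hB.le
    have h2 : exp B * sinh B ≤ B * (exp B * cosh B) := by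
      have := exp_pos B
      nlinarith
    have h3 : exp B * cosh B = (exp B ^ 2 + 1) / 2 := by
      rw [cosh_eq, exp_neg]
      have := exp_pos B
      field_simp
    rw [← mul_div_assoc, div_le_iff₀ hB]
    rw [h3] at h2
    linarith
  have h2B : 2 * B * (exp B * (sinh B / B)) = exp B ^ 2 - 1 := by
    rw [exp_two_mul_sub_one]
    field_simp
  have hQ0 : 0 ≤ q A B * exp (A + B) - 1 := by
    rw [q_exp_sub_one hA hB]
    have := C_mono hB hBA
    apply mul_nonneg (by linarith)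
    positivity
  have hEB : 1 ≤ exp B ^ 2 := by
    have : 1 ≤ exp B := one_le_exp hB.le
    nlinarith
  have hQ1 : q A B * exp (A + B) - 1 ≤ (exp B ^ 2 - 1) + (C D + D) * ((exp B ^ 2 + 1) / 2) - 1 := by
    have h1 : q A B * exp (A + B) = (A + C A) * (exp B * (sinh B / B)) := by
      have h3 : exp A = cosh A + sinh A := (cosh_add_sinh A).symm
      unfold q C
      rw [exp_add, h3]
      field_simp
      ring
    have h2 : A + C A ≤ 2 * B + (C D + D) := by linarith
    have h3 : (A + C A) * (exp B * (sinh B / B)) ≤ (2 * B + (C D + D)) * (exp B * (sinh B / B)) := by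
      apply mul_le_mul_of_nonneg_right h2; positivity
    have h4 : (C D + D) * (exp B * (sinh B / B)) ≤ (C D + D) * ((exp B ^ 2 + 1) / 2) := by
      apply mul_le_mul_of_nonneg_left hE2; linarith
    rw [h1]
    nlinarith
  -- the final comparison
  have hX : ∃ X : ℝ, 0 ≤ X ∧ 2 * X ^ 2 ≤ exp (2 * D) - 1 - 2 * D ∧
      q A B * exp (A + B) - 1 ≤ exp B ^ 2 * X := by
    rcases le_total (C D + D) 4 with hc | hc
    · refine ⟨1 + (C D + D) / 2, by linarith, hl1, ?_⟩
      nlinarith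
    · refine ⟨(C D + D) - 1, by linarith, hl2, ?_⟩
      nlinarith
  obtain ⟨X, hX0, hX1, hX2⟩ := hX
  have hR : exp B ^ 4 * (exp (2 * D) - 1 - 2 * D)
      ≤ (exp (A + B) ^ 2 - 1) * ((A + B) - (C A - C B)) := by
    have h1 : exp (2 * D) - 1 - 2 * D = (exp (2 * D) - 1) * (1 - (C D - D)) := by
      rw [C_sub_self_eq hD0]
      have h2 : 1 < exp (2 * D) := one_lt_exp_iff.2 (by positivity)
      have : exp (2 * D) - 1 ≠ 0 := by linarith
      field_simp
    have h2 : exp (A + B) ^ 2 = exp B ^ 4 * exp (2 * D) := by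
      rw [← exp_nat_mul, ← exp_nat_mul, ← exp_add]
      congr 1
      rw [hDdef]; push_cast; ring
    rw [h1, h2, ← mul_assoc]
    have h3 : exp B ^ 4 * (exp (2 * D) - 1) ≤ exp B ^ 4 * exp (2 * D) - 1 := by
      have : 1 ≤ exp B ^ 4 := by nlinarith
      linarith
    have h4 : 1 ≤ exp (2 * D) := one_le_exp (by positivity)
    apply mul_le_mul h3 hSM
    · linarith
    · have : 1 ≤ exp B ^ 4 := by nlinarith
      nlinarith
  have h5 : 2 * (q A B * exp (A + B) - 1) ^ 2 ≤ 2 * (exp B ^ 2 * X) ^ 2 := by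
    have := pow_le_pow_left₀ hQ0 hX2 2
    linarith
  have h6 : 2 * (exp B ^ 2 * X) ^ 2 = exp B ^ 4 * (2 * X ^ 2) := by ring
  have h7 : exp B ^ 4 * (2 * X ^ 2) ≤ exp B ^ 4 * (exp (2 * D) - 1 - 2 * D) := by
    apply mul_le_mul_of_nonneg_left hX1
    positivity
  linarith

/-- The inequality `G₋ ≤ 0`. -/
lemma G_minus {A B : ℝ} (hB : 0 < B) (hBA : B ≤ A) :
    2 * (q A B * exp (A + B) - 1) ^ 2 ≤ (exp (A + B) ^ 2 - 1) * ((A + B) - (C A - C B)) := by
  rcases le_total (A - B) (57 / 40) with h | h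
  · exact G_minus_small hB hBA h
  · exact G_minus_large hB hBA h

end Pool.Agent.helper83.MIHyp
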