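import Pool.Agent.helper83.MIHyp

/-!
The second-order inequality at a stationary point.
-/

namespace Pool.Agent.helper83.MILocal

open Real Set Pool.Agent.helper83.MIHyp

lemma CS_plus {A B : ℝ} (hA : 0 < A) (hB : 0 < B) :
    sinh A * sinh B * ((A + B) + (C A - C B))
      = A * sinh B * exp A - B * sinh A * exp (-B) := by
  have hsA : 0 < sinh A := sinh_pos_iff.2 hA
  have hsB : 0 < sinh B := sinh_pos_iff.2 hB
  have hCA : C A * sinh A = A * cosh A := by unfold C; field_simp
  have hCB : C B * sinh B = B * cosh B := by unfold C; field_simp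
  rw [← cosh_add_sinh A, ← cosh_sub_sinh B]
  linear_combination sinh B * hCA - sinh A * hCB

lemma CS_minus {A B : ℝ} (hA : 0 < A) (hB : 0 < B) :
    sinh A * sinh B * ((A + B) - (C A - C B))
      = B * sinh A * exp B - A * sinh B * exp (-A) := by
  have hsA : 0 < sinh A := sinh_pos_iff.2 hA
  have hsB : 0 < sinh B := sinh_pos_iff.2 hB
  have hCA : C A * sinh A = A * cosh A := by unfold C; field_simp
  have hCB : C B * sinh B = B * cosh B := by unfold C; field_simp
  rw [← cosh_add_sinh B, ← cosh_sub_sinh A]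
  linear_combination sinh A * hCB - sinh B * hCA

lemma X1_neg {A B : ℝ} (hB : 0 < B) (hBA : B ≤ A) :
    sinh B * exp A + q A B ^ 2 * sinh A * exp (-B)
      - ((q A B * sinh A + sinh B) / sinh (A + B)) ^ 2 * sinh (A + B)
      - A * sinh B * exp A + B * sinh A * exp (-B) < 0 := by
  have hA : 0 < A := hB.trans_le hBA
  have hsA : 0 < sinh A := sinh_pos_iff.2 hA
  have hsB : 0 < sinh B := sinh_pos_iff.2 hB
  have hsS : 0 < sinh (A + B) := sinh_pos_iff.2 (by positivity)
  have hp := G_plus hB hBA
  have hCS := CS_plus hA hB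
  set Q := q A B with hQ
  have hE : 0 < exp (A + B) := exp_pos _
  have h1 : exp A * sinh (A + B) - sinh B = sinh A * exp (A + B) := by
    rw [exp_add, ← cosh_add_sinh A, ← cosh_add_sinh B, sinh_add]
    linear_combination sinh B * cosh_sq A
  have h2 : exp (-B) * sinh (A + B) - sinh A = sinh B * exp (-(A + B)) := by
    rw [neg_add, exp_add, ← cosh_sub_sinh A, ← cosh_sub_sinh B, sinh_add]
    linear_combination sinh A * cosh_sq B
  have h3 : exp (A + B) * exp (-(A + B)) = 1 := by rw [← exp_add]; simp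
  rw [exp_two_mul_sub_one] at hp
  -- `(E - Q)² e^{-S} < sinh S (S + M)`
  have h4 : exp (A + B) - 2 * Q + Q ^ 2 * exp (-(A + B))
      < sinh (A + B) * ((A + B) + (C A - C B)) := by
    have h5 : (exp (A + B) - 2 * Q + Q ^ 2 * exp (-(A + B))) * exp (A + B)
        < (sinh (A + B) * ((A + B) + (C A - C B))) * exp (A + B) := by
      have h6 : (exp (A + B) - 2 * Q + Q ^ 2 * exp (-(A + B))) * exp (A + B)
          = (exp (A + B) - Q) ^ 2 := by linear_combination Q ^ 2 * h3
      rw [h6]
      linarith
    exact lt_of_mul_lt_mul_right h5 hE.le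
  have h7 := mul_lt_mul_of_pos_left h4 (mul_pos hsA hsB)
  have h8 : sinh A * sinh B * (sinh (A + B) * ((A + B) + (C A - C B)))
      = sinh (A + B) * (A * sinh B * exp A - B * sinh A * exp (-B)) := by
    rw [← hCS]; ring
  have h9 : ((Q * sinh A + sinh B) / sinh (A + B)) ^ 2 * sinh (A + B)
      = (Q * sinh A + sinh B) ^ 2 / sinh (A + B) := by field_simp
  rw [h9]
  have h10 : (sinh B * exp A + Q ^ 2 * sinh A * exp (-B)
      - (Q * sinh A + sinh B) ^ 2 / sinh (A + B)
      - A * sinh B * exp A + B * sinh A * exp (-B)) * sinh (A + B) < 0 := by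
    have h11 : (sinh B * exp A + Q ^ 2 * sinh A * exp (-B)
      - (Q * sinh A + sinh B) ^ 2 / sinh (A + B)
      - A * sinh B * exp A + B * sinh A * exp (-B)) * sinh (A + B)
      = sinh B * (exp A * sinh (A + B)) + Q ^ 2 * sinh A * (exp (-B) * sinh (A + B))
      - (Q * sinh A + sinh B) ^ 2
      - sinh (A + B) * (A * sinh B * exp A - B * sinh A * exp (-B)) := by
      field_simp
      ring
    rw [h11, ← h8]
    have h12 : exp A * sinh (A + B) = sinh A * exp (A + B) + sinh B := by linarith
    have h13 : exp (-B) * sinh (A + B) = sinh B * exp (-(A + B)) + sinh A := by linarith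
    rw [h12, h13]
    linarith
  by_contra hcon
  push Not at hcon
  have := mul_nonneg hcon hsS.le
  linarith

lemma X2_nonpos {A B : ℝ} (hB : 0 < B) (hBA : B ≤ A) :
    sinh B * exp (-A) + q A B ^ 2 * sinh A * exp B
      - ((q A B * sinh A + sinh B) / sinh (A + B)) ^ 2 * sinh (A + B)
      + A * sinh B * exp (-A) - B * sinh A * exp B ≤ 0 := by
  have hA : 0 < A := hB.trans_le hBA
  have hsA : 0 < sinh A := sinh_pos_iff.2 hA
  have hsB : 0 < sinh B := sinh_pos_iff.2 hB
  have hsS : 0 < sinh (A + B) := sinh_pos_iff.2 (by positivity)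
  have hp := G_minus hB hBA
  have hCS := CS_minus hA hB
  set Q := q A B with hQ
  have hE : 0 < exp (A + B) := exp_pos _
  have h1 : exp (-A) * sinh (A + B) - sinh B = sinh A * exp (-(A + B)) := by
    rw [neg_add, exp_add, ← cosh_sub_sinh A, ← cosh_sub_sinh B, sinh_add]
    linear_combination sinh B * cosh_sq A
  have h2 : exp B * sinh (A + B) - sinh A = sinh B * exp (A + B) := by
    rw [exp_add, ← cosh_add_sinh A, ← cosh_add_sinh B, sinh_add]
    linear_combination sinh A * cosh_sq B
  have h3 : exp (A + B) * exp (-(A + B)) = 1 := by rw [← exp_add]; simp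
  rw [exp_two_mul_sub_one] at hp
  have h4 : exp (-(A + B)) - 2 * Q + Q ^ 2 * exp (A + B)
      ≤ sinh (A + B) * ((A + B) - (C A - C B)) := by
    have h5 : (exp (-(A + B)) - 2 * Q + Q ^ 2 * exp (A + B)) * exp (A + B)
        ≤ (sinh (A + B) * ((A + B) - (C A - C B))) * exp (A + B) := by
      have h6 : (exp (-(A + B)) - 2 * Q + Q ^ 2 * exp (A + B)) * exp (A + B)
          = (Q * exp (A + B) - 1) ^ 2 := by linear_combination h3
      rw [h6]
      linarith
    exact le_of_mul_le_mul_right h5 hE
  have h7 := mul_le_mul_of_nonneg_left h4 (mul_pos hsA hsB).le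
  have h8 : sinh A * sinh B * (sinh (A + B) * ((A + B) - (C A - C B)))
      = sinh (A + B) * (B * sinh A * exp B - A * sinh B * exp (-A)) := by
    rw [← hCS]; ring
  have h9 : ((Q * sinh A + sinh B) / sinh (A + B)) ^ 2 * sinh (A + B)
      = (Q * sinh A + sinh B) ^ 2 / sinh (A + B) := by field_simp
  rw [h9]
  have h10 : (sinh B * exp (-A) + Q ^ 2 * sinh A * exp B
      - (Q * sinh A + sinh B) ^ 2 / sinh (A + B)
      + A * sinh B * exp (-A) - B * sinh A * exp B) * sinh (A + B) ≤ 0 := by
    have h11 : (sinh B * exp (-A) + Q ^ 2 * sinh A * exp B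
      - (Q * sinh A + sinh B) ^ 2 / sinh (A + B)
      + A * sinh B * exp (-A) - B * sinh A * exp B) * sinh (A + B)
      = sinh B * (exp (-A) * sinh (A + B)) + Q ^ 2 * sinh A * (exp B * sinh (A + B))
      - (Q * sinh A + sinh B) ^ 2
      - sinh (A + B) * (B * sinh A * exp B - A * sinh B * exp (-A)) := by
      field_simp
      ring
    rw [h11, ← h8]
    have h12 : exp (-A) * sinh (A + B) = sinh A * exp (-(A + B)) + sinh B := by linarith
    have h13 : exp B * sinh (A + B) = sinh B * exp (A + B) + sinh A := by linarith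
    rw [h12, h13]
    linarith
  by_contra hcon
  push Not at hcon
  have := mul_pos hcon hsS
  linarith

/-- The linear-in-`(cosh b, sinh b)` inequality at `t = 1`. -/
lemma core {A B : ℝ} (b : ℝ) (hB : 0 < B) (hBA : B ≤ A) :
    sinh B * cosh (b + A) + q A B ^ 2 * sinh A * cosh (b - B)
      - ((q A B * sinh A + sinh B) / sinh (A + B)) ^ 2 * cosh b * sinh (A + B)
      - A * sinh B * sinh (b + A) + B * sinh A * sinh (b - B) < 0 := by
  have h1 := X1_neg hB hBA
  have h2 := X2_nonpos hB hBA
  set T := (q A B * sinh A + sinh B) / sinh (A + B) with hT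
  have h3 := mul_neg_of_neg_of_pos h1 (exp_pos b)
  have h4 := mul_nonpos_of_nonpos_of_nonneg h2 (exp_pos (-b)).le
  have e1 : cosh (b + A) = (exp b * exp A + exp (-b) * exp (-A)) / 2 := by
    rw [cosh_eq, neg_add, exp_add, exp_add]
  have e2 : sinh (b + A) = (exp b * exp A - exp (-b) * exp (-A)) / 2 := by
    rw [sinh_eq, neg_add, exp_add, exp_add]
  have e3 : cosh (b - B) = (exp b * exp (-B) + exp (-b) * exp B) / 2 := by
    rw [cosh_eq, sub_eq_add_neg b B, neg_add, neg_neg, exp_add, exp_add]
  have e4 : sinh (b - B) = (exp b * exp (-B) - exp (-b) * exp B) / 2 := by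
    rw [sinh_eq, sub_eq_add_neg b B, neg_add, neg_neg, exp_add, exp_add]
  have e5 : cosh b = (exp b + exp (-b)) / 2 := cosh_eq b
  rw [e1, e2, e3, e4, e5]
  nlinarith

/-- The same inequality at `t = 0`. -/
lemma core0 {A B : ℝ} (b : ℝ) (hB : 0 < B) (hBA : B ≤ A) :
    - A * sinh B * sinh (b + A) + B * sinh A * sinh (b - B) < 0 := by
  have hA : 0 < A := hB.trans_le hBA
  have hsA : 0 < sinh A := sinh_pos_iff.2 hA
  have hsB : 0 < sinh B := sinh_pos_iff.2 hB
  have hCS := CS_plus hA hB
  have hCS' := CS_minus hA hB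
  have hM := C_mono hB hBA
  have hM' := C_sub_self_anti hB hBA
  have h1 : 0 < A * sinh B * exp A - B * sinh A * exp (-B) := by
    rw [← hCS]
    have : 0 < (A + B) + (C A - C B) := by linarith
    positivity
  have h2 : 0 < B * sinh A * exp B - A * sinh B * exp (-A) := by
    rw [← hCS']
    have : 0 < (A + B) - (C A - C B) := by linarith
    positivity
  have h3 := mul_pos h1 (exp_pos b)
  have h4 := mul_pos h2 (exp_pos (-b))
  have e2 : sinh (b + A) = (exp b * exp A - exp (-b) * exp (-A)) / 2 := by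
    rw [sinh_eq, neg_add, exp_add, exp_add]
  have e4 : sinh (b - B) = (exp b * exp (-B) - exp (-b) * exp B) / 2 := by
    rw [sinh_eq, sub_eq_add_neg b B, neg_add, neg_neg, exp_add, exp_add]
  rw [e2, e4]
  nlinarith

/-- Second-order inequality in hyperbolic coordinates, case `B ≤ A`. -/
lemma local_hyp {A B b p r x y : ℝ} (hB : 0 < B) (hBA : B ≤ A) (_hp : 0 < p) (hr : 0 < r)
    (hpr : p + r = 1) (hm : p * tanh (b + A) + r * tanh (b - B) = tanh b)
    (hx : x ^ 2 ≤ 1 - tanh (b + A) ^ 2) (stat : p * x * A = r * y * B) :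
    p * (x ^ 2 / (1 - tanh (b + A) ^ 2) - tanh (b + A) * A)
      + r * (y ^ 2 / (1 - tanh (b - B) ^ 2) + tanh (b - B) * B)
      - (p * x + r * y) ^ 2 / (1 - tanh b ^ 2) < 0 := by
  have hA : 0 < A := hB.trans_le hBA
  have hsA : 0 < sinh A := sinh_pos_iff.2 hA
  have hsB : 0 < sinh B := sinh_pos_iff.2 hB
  have hsS : 0 < sinh (A + B) := sinh_pos_iff.2 (by positivity)
  have ca : 0 < cosh (b + A) := cosh_pos _
  have cb : 0 < cosh b := cosh_pos _
  have cg : 0 < cosh (b - B) := cosh_pos _
  have tA : 1 - tanh (b + A) ^ 2 = 1 / cosh (b + A) ^ 2 := by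
    rw [tanh_eq_sinh_div_cosh]
    field_simp
    rw [cosh_sq]; ring
  have tB : 1 - tanh (b - B) ^ 2 = 1 / cosh (b - B) ^ 2 := by
    rw [tanh_eq_sinh_div_cosh]
    field_simp
    rw [cosh_sq]; ring
  have tb : 1 - tanh b ^ 2 = 1 / cosh b ^ 2 := by
    rw [tanh_eq_sinh_div_cosh]
    field_simp
    rw [cosh_sq]; ring
  -- weights
  have w1 : p * (sinh A * cosh (b - B)) = r * (sinh B * cosh (b + A)) := by
    have h1 : tanh (b + A) - tanh b = sinh A / (cosh (b + A) * cosh b) := by
      rw [tanh_eq_sinh_div_cosh, tanh_eq_sinh_div_cosh, div_sub_div _ _ ca.ne' cb.ne']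
      congr 1
      rw [sinh_add, cosh_add]
      linear_combination sinh A * cosh_sq b
    have h2 : tanh b - tanh (b - B) = sinh B / (cosh b * cosh (b - B)) := by
      rw [tanh_eq_sinh_div_cosh, tanh_eq_sinh_div_cosh, div_sub_div _ _ cb.ne' cg.ne']
      congr 1
      rw [sinh_sub, cosh_sub]
      linear_combination sinh B * cosh_sq b
    have h3 : p * (tanh (b + A) - tanh b) = r * (tanh b - tanh (b - B)) := by
      have : r = 1 - p := by linarith
      subst this
      linarith
    rw [h1, h2] at h3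
    field_simp at h3
    linarith
  have w2 : sinh A * cosh (b - B) + sinh B * cosh (b + A) = cosh b * sinh (A + B) := by
    rw [cosh_sub, cosh_add, sinh_add]
    ring
  have hp1 : p * (cosh b * sinh (A + B)) = sinh B * cosh (b + A) := by
    rw [← w2]
    have : r = 1 - p := by linarith
    subst this
    linarith
  have hr1 : r * (cosh b * sinh (A + B)) = sinh A * cosh (b - B) := by
    rw [← w2]
    have : r = 1 - p := by linarith
    subst this
    linarith
  set t := x ^ 2 * cosh (b + A) ^ 2 with ht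
  have ht0 : 0 ≤ t := by positivity
  have ht1 : t ≤ 1 := by
    rw [tA, le_div_iff₀ (by positivity)] at hx
    exact hx
  set Q := q A B with hQ
  have hQdef : Q * (B * sinh A) = A * sinh B := by
    rw [hQ]; unfold q; field_simp
  -- `y cosh (b - B) = Q x cosh (b + A)`
  have hy : y * cosh (b - B) = Q * (x * cosh (b + A)) := by
    have h1 : r * B * sinh A * (y * cosh (b - B)) = r * B * sinh A * (Q * (x * cosh (b + A))) := by
      have h2 : r * B * sinh A * (y * cosh (b - B)) = (r * y * B) * (sinh A * cosh (b - B)) := by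
        ring
      have h3 : r * B * sinh A * (Q * (x * cosh (b + A)))
          = r * (Q * (B * sinh A)) * (x * cosh (b + A)) := by ring
      rw [h2, ← stat, h3, hQdef]
      have h4 : p * x * A * (sinh A * cosh (b - B)) = x * A * (p * (sinh A * cosh (b - B))) := by
        ring
      rw [h4, w1]
      ring
    have h5 : r * B * sinh A ≠ 0 := by positivity
    exact mul_left_cancel₀ h5 h1
  set T := (Q * sinh A + sinh B) / sinh (A + B) with hT
  have hmm : (p * x + r * y) * cosh b = T * (x * cosh (b + A)) := by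
    have h1 : ((p * x + r * y) * cosh b) * sinh (A + B)
        = (T * (x * cosh (b + A))) * sinh (A + B) := by
      have h2 : ((p * x + r * y) * cosh b) * sinh (A + B)
          = x * (p * (cosh b * sinh (A + B))) + y * (r * (cosh b * sinh (A + B))) := by ring
      rw [h2, hp1, hr1]
      have h3 : x * (sinh B * cosh (b + A)) + y * (sinh A * cosh (b - B))
          = x * (sinh B * cosh (b + A)) + sinh A * (y * cosh (b - B)) := by ring
      rw [h3, hy, hT]
      field_simp
      ring
    exact mul_right_cancel₀ hsS.ne' h1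
  have e1 : x ^ 2 / (1 / cosh (b + A) ^ 2) = t := by rw [ht]; field_simp
  have e2 : y ^ 2 / (1 / cosh (b - B) ^ 2) = Q ^ 2 * t := by
    have : y ^ 2 / (1 / cosh (b - B) ^ 2) = (y * cosh (b - B)) ^ 2 := by field_simp
    rw [this, hy, ht]; ring
  have e3 : (p * x + r * y) ^ 2 / (1 / cosh b ^ 2) = T ^ 2 * t := by
    have : (p * x + r * y) ^ 2 / (1 / cosh b ^ 2) = ((p * x + r * y) * cosh b) ^ 2 := by
      field_simp
    rw [this, hmm, ht]; ring
  rw [tA, tB, tb, e1, e2, e3]
  have hcore := core b hB hBA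
  have hcore0 := core0 b hB hBA
  rw [← hQ, ← hT] at hcore
  have hsA' : tanh (b + A) * cosh (b + A) = sinh (b + A) := by
    rw [tanh_eq_sinh_div_cosh]; field_simp
  have hsB' : tanh (b - B) * cosh (b - B) = sinh (b - B) := by
    rw [tanh_eq_sinh_div_cosh]; field_simp
  -- multiply by `cosh b * sinh (A + B)`
  have key : (p * (t - tanh (b + A) * A) + r * (Q ^ 2 * t + tanh (b - B) * B) - T ^ 2 * t)
      * (cosh b * sinh (A + B))
      = t * (sinh B * cosh (b + A) + Q ^ 2 * sinh A * cosh (b - B)
        - T ^ 2 * cosh b * sinh (A + B) - A * sinh B * sinh (b + A) + B * sinh A * sinh (b - B))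
        + (1 - t) * (- A * sinh B * sinh (b + A) + B * sinh A * sinh (b - B)) := by
    rw [← hsA', ← hsB']
    linear_combination (t - tanh (b + A) * A) * hp1 + (Q ^ 2 * t + tanh (b - B) * B) * hr1
  have hneg : (p * (t - tanh (b + A) * A) + r * (Q ^ 2 * t + tanh (b - B) * B) - T ^ 2 * t)
      * (cosh b * sinh (A + B)) < 0 := by
    rw [key]
    rcases ht0.eq_or_lt with h | h
    · rw [← h]; linarith
    · have h1 := mul_neg_of_pos_of_neg h hcore
      have h2 := mul_nonpos_of_nonneg_of_nonpos (sub_nonneg.2 ht1) hcore0.le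
      linarith
  by_contra hcon
  push Not at hcon
  have := mul_nonneg hcon (mul_pos cb hsS).le
  linarith

end Pool.Agent.helper83.MILocal
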