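import Pool.Agent.helper83.MICalc

/-!
Two-by-two Hermitian matrices: reduction of the qubit problem to the arc parametrisation.
-/

namespace Pool.Agent.helper83.MIMat

open Matrix Pool.Agent.helper83.MICalc
open scoped ComplexOrder

/-- The real number `Tr (A B)` (real part of the trace of the product). -/
noncomputable def tr2 (A B : Matrix (Fin 2) (Fin 2) ℂ) : ℝ := (A * B).trace.re

/-- `P 0, P 1` are the rank-one orthogonal projectors onto two orthogonal eigenvectors of the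
Hermitian matrix `H`. -/
structure IsEigenMeas (H : Matrix (Fin 2) (Fin 2) ℂ) (P : Fin 2 → Matrix (Fin 2) (Fin 2) ℂ) : Prop where
  herm : ∀ y, (P y).IsHermitian
  idem : ∀ y, P y * P y = P y
  trace_one : ∀ y, (P y).trace = 1
  sum_one : P 0 + P 1 = 1
  eigen : ∀ y, ∃ e : ℝ, H * P y = e • P y

lemma tr2_comm (A B : Matrix (Fin 2) (Fin 2) ℂ) : tr2 A B = tr2 B A := by
  unfold tr2; rw [Matrix.trace_mul_comm]

lemma tr2_add_left (A B X : Matrix (Fin 2) (Fin 2) ℂ) : tr2 (A + B) X = tr2 A X + tr2 B X := by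
  unfold tr2; rw [add_mul, Matrix.trace_add, Complex.add_re]

lemma tr2_sub_left (A B X : Matrix (Fin 2) (Fin 2) ℂ) : tr2 (A - B) X = tr2 A X - tr2 B X := by
  unfold tr2; rw [sub_mul, Matrix.trace_sub, Complex.sub_re]

lemma tr2_smul_left (c : ℝ) (A X : Matrix (Fin 2) (Fin 2) ℂ) : tr2 (c • A) X = c * tr2 A X := by
  unfold tr2; rw [smul_mul_assoc, Matrix.trace_smul, Complex.real_smul, Complex.re_ofReal_mul]

lemma tr2_add_right (A B X : Matrix (Fin 2) (Fin 2) ℂ) : tr2 X (A + B) = tr2 X A + tr2 X B := by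
  rw [tr2_comm, tr2_add_left, tr2_comm A, tr2_comm B]

lemma tr2_sub_right (A B X : Matrix (Fin 2) (Fin 2) ℂ) : tr2 X (A - B) = tr2 X A - tr2 X B := by
  rw [tr2_comm, tr2_sub_left, tr2_comm A, tr2_comm B]

lemma tr2_smul_right (c : ℝ) (A X : Matrix (Fin 2) (Fin 2) ℂ) : tr2 X (c • A) = c * tr2 X A := by
  rw [tr2_comm, tr2_smul_left, tr2_comm A]

lemma tr2_one_right (A : Matrix (Fin 2) (Fin 2) ℂ) : tr2 A 1 = A.trace.re := by
  unfold tr2; rw [mul_one]

lemma tr2_one_left (A : Matrix (Fin 2) (Fin 2) ℂ) : tr2 1 A = A.trace.re := by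
  unfold tr2; rw [one_mul]

lemma tr2_self_eq {X : Matrix (Fin 2) (Fin 2) ℂ} (hX : X.IsHermitian) :
    tr2 X X = ‖X 0 0‖ ^ 2 + ‖X 0 1‖ ^ 2 + ‖X 1 0‖ ^ 2 + ‖X 1 1‖ ^ 2 := by
  have key : ∀ i j, X i j * X j i = ((‖X i j‖ ^ 2 : ℝ) : ℂ) := by
    intro i j
    have h1 : X j i = star (X i j) := by
      have := congrFun (congrFun hX j) i
      rw [Matrix.conjTranspose_apply] at this
      exact this.symm
    rw [h1]
    simpa using Complex.mul_conj' (X i j)
  unfold tr2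
  rw [Matrix.trace_fin_two, Matrix.mul_apply, Matrix.mul_apply, Fin.sum_univ_two,
    Fin.sum_univ_two, key, key, key, key]
  simp only [Complex.add_re, Complex.ofReal_re]
  ring

lemma tr2_self_nonneg {X : Matrix (Fin 2) (Fin 2) ℂ} (hX : X.IsHermitian) : 0 ≤ tr2 X X := by
  rw [tr2_self_eq hX]; positivity

lemma tr2_self_pos {X : Matrix (Fin 2) (Fin 2) ℂ} (hX : X.IsHermitian) (h0 : X ≠ 0) : 0 < tr2 X X := by
  rw [tr2_self_eq hX]
  by_contra hcon
  push Not at hcon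
  apply h0
  have h1 : 0 ≤ ‖X 0 0‖ ^ 2 := by positivity
  have h2 : 0 ≤ ‖X 0 1‖ ^ 2 := by positivity
  have h3 : 0 ≤ ‖X 1 0‖ ^ 2 := by positivity
  have h4 : 0 ≤ ‖X 1 1‖ ^ 2 := by positivity
  have e1 : ‖X 0 0‖ ^ 2 = 0 := by linarith
  have e2 : ‖X 0 1‖ ^ 2 = 0 := by linarith
  have e3 : ‖X 1 0‖ ^ 2 = 0 := by linarith
  have e4 : ‖X 1 1‖ ^ 2 = 0 := by linarith
  ext i j
  fin_cases i <;> fin_cases j <;> simp_all

lemma tr2_density_le {X : Matrix (Fin 2) (Fin 2) ℂ} (hX : X.PosSemidef) (ht : X.trace = 1) : tr2 X X ≤ 1 := by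
  have hd := hX.det_nonneg
  rw [Matrix.det_fin_two] at hd
  have hd' := (Complex.le_def.1 hd).1
  rw [Matrix.trace_fin_two] at ht
  unfold tr2
  rw [Matrix.trace_fin_two, Matrix.mul_apply, Matrix.mul_apply, Fin.sum_univ_two,
    Fin.sum_univ_two]
  have e : X 0 0 * X 0 0 + X 0 1 * X 1 0 + (X 1 0 * X 0 1 + X 1 1 * X 1 1)
      = 1 - 2 * (X 0 0 * X 1 1 - X 0 1 * X 1 0) := by
    have h2 : (X 0 0 + X 1 1) ^ 2 = 1 := by rw [ht]; norm_num
    linear_combination h2
  rw [e]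
  simp only [Complex.sub_re, Complex.mul_re, Complex.one_re, Complex.re_ofNat, Complex.im_ofNat,
    Complex.zero_re, Complex.sub_im, Complex.mul_im] at hd' ⊢
  linarith

lemma traceless_sq {X : Matrix (Fin 2) (Fin 2) ℂ} (hX : X.IsHermitian) (ht : X.trace = 0) :
    X * X = (tr2 X X / 2) • (1 : Matrix (Fin 2) (Fin 2) ℂ) := by
  have h00 : X 1 1 = - X 0 0 := by
    rw [Matrix.trace_fin_two] at ht
    linear_combination ht
  have e : (((tr2 X X / 2 : ℝ)) : ℂ) = X 0 0 * X 0 0 + X 0 1 * X 1 0 := by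
    have him : ((X * X).trace).im = 0 := by
      have h1 : (X * X).trace = star ((X * X).trace) := by
        rw [← Matrix.trace_conjTranspose, Matrix.conjTranspose_mul, hX.eq]
      have h2 := congrArg Complex.im h1
      simp only [Complex.star_def, Complex.conj_im] at h2
      linarith
    have h3 : ((tr2 X X : ℝ) : ℂ) = (X * X).trace := by
      apply Complex.ext
      · simp [tr2]
      · simp [him]
    push_cast
    rw [h3, Matrix.trace_fin_two, Matrix.mul_apply, Matrix.mul_apply, Fin.sum_univ_two,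
      Fin.sum_univ_two, h00]
    ring
  ext i j
  rw [Matrix.smul_apply, Complex.real_smul, e, Matrix.mul_apply, Fin.sum_univ_two]
  fin_cases i <;> fin_cases j <;> simp [h00] <;> ring

/-- The outcome probabilities of the eigenprojectors of `H`. -/
lemma eigen_prob {H : Matrix (Fin 2) (Fin 2) ℂ} {P : Fin 2 → Matrix (Fin 2) (Fin 2) ℂ} {k : ℝ} (hP : IsEigenMeas H P)
    (hk : 0 < k) (hk2 : 2 * k ^ 2 = tr2 (H - (H.trace.re / 2) • (1 : Matrix (Fin 2) (Fin 2) ℂ))
      (H - (H.trace.re / 2) • (1 : Matrix (Fin 2) (Fin 2) ℂ))) :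
    ∃ s : ℝ, (s = 1 ∨ s = -1) ∧ ∀ X : Matrix (Fin 2) (Fin 2) ℂ,
      tr2 X (P 0) = (tr2 X 1 + s * (tr2 X (H - (H.trace.re / 2) • (1 : Matrix (Fin 2) (Fin 2) ℂ)) / k)) / 2 ∧
      tr2 X (P 1) = (tr2 X 1 - s * (tr2 X (H - (H.trace.re / 2) • (1 : Matrix (Fin 2) (Fin 2) ℂ)) / k)) / 2 := by
  obtain ⟨e0, he0⟩ := hP.eigen 0
  obtain ⟨e1, he1⟩ := hP.eigen 1
  have hH : H = e0 • P 0 + e1 • P 1 := by
    rw [← he0, ← he1, ← mul_add, hP.sum_one, mul_one]
  have htr : H.trace.re = e0 + e1 := by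
    rw [hH, Matrix.trace_add, Matrix.trace_smul, Matrix.trace_smul, hP.trace_one, hP.trace_one]
    simp
  have hP01 : P 0 * P 1 = 0 := by
    have h1 : P 1 = 1 - P 0 := by rw [← hP.sum_one]; abel
    rw [h1, mul_sub, mul_one, hP.idem 0, sub_self]
  set e := (e0 - e1) / 2 with he
  have hH' : H - (H.trace.re / 2) • (1 : Matrix (Fin 2) (Fin 2) ℂ) = e • (P 0 - P 1) := by
    rw [htr, hH, ← hP.sum_one, he]
    module
  rw [hH'] at hk2 ⊢
  have t00 : tr2 (P 0) (P 0) = 1 := by unfold tr2; rw [hP.idem, hP.trace_one]; simp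
  have t11 : tr2 (P 1) (P 1) = 1 := by unfold tr2; rw [hP.idem, hP.trace_one]; simp
  have t01 : tr2 (P 0) (P 1) = 0 := by unfold tr2; rw [hP01]; simp
  have t10 : tr2 (P 1) (P 0) = 0 := by rw [tr2_comm, t01]
  have h2 : k ^ 2 = e ^ 2 := by
    rw [tr2_smul_left, tr2_smul_right, tr2_sub_left, tr2_sub_right, tr2_sub_right, t00, t11, t01,
      t10] at hk2
    linarith
  have h3 : (e - k) * (e + k) = 0 := by linarith
  have hX : ∀ X : Matrix (Fin 2) (Fin 2) ℂ, tr2 X 1 = tr2 X (P 0) + tr2 X (P 1) := by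
    intro X; rw [← hP.sum_one, tr2_add_right]
  rcases mul_eq_zero.1 h3 with h | h
  · have hek : e = k := by linarith
    refine ⟨1, Or.inl rfl, fun X => ?_⟩
    rw [hX X, hek, tr2_smul_right, tr2_sub_right]
    constructor
    · field_simp; ring
    · field_simp; ring
  · have hek : e = -k := by linarith
    refine ⟨-1, Or.inr rfl, fun X => ?_⟩
    rw [hX X, hek, tr2_smul_right, tr2_sub_right]
    constructor
    · field_simp; ring
    · field_simp; ring

/-- Existence of eigenprojectors. -/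
lemma exists_eigenMeas {H : Matrix (Fin 2) (Fin 2) ℂ} (hH : H.IsHermitian) {k : ℝ}
    (hk : 0 < k) (hk2 : 2 * k ^ 2 = tr2 (H - (H.trace.re / 2) • (1 : Matrix (Fin 2) (Fin 2) ℂ))
      (H - (H.trace.re / 2) • (1 : Matrix (Fin 2) (Fin 2) ℂ))) : ∃ P : Fin 2 → Matrix (Fin 2) (Fin 2) ℂ, IsEigenMeas H P := by
  set X := H - (H.trace.re / 2) • (1 : Matrix (Fin 2) (Fin 2) ℂ) with hX
  have hXh : X.IsHermitian := by
    rw [hX]
    apply hH.sub
    unfold Matrix.IsHermitian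
    rw [Matrix.conjTranspose_smul, Matrix.conjTranspose_one]
    simp
  have htr : ((H.trace.re : ℝ) : ℂ) = H.trace := by
    apply Complex.ext
    · simp
    · have h1 : H.trace = star H.trace := by
        rw [← Matrix.trace_conjTranspose, hH.eq]
      have h2 := congrArg Complex.im h1
      simp only [Complex.star_def, Complex.conj_im] at h2
      simp
      linarith
  have hX0 : X.trace = 0 := by
    rw [hX, Matrix.trace_sub, Matrix.trace_smul, Matrix.trace_one, Complex.real_smul]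
    push_cast
    rw [htr]
    simp
  have hsq := traceless_sq hXh hX0
  rw [← hk2] at hsq
  have hsq' : X * X = (k ^ 2) • (1 : Matrix (Fin 2) (Fin 2) ℂ) := by
    rw [hsq]; congr 1; ring
  have hHX : H = X + (H.trace.re / 2) • (1 : Matrix (Fin 2) (Fin 2) ℂ) := by rw [hX]; abel
  refine ⟨![(1 / 2 : ℝ) • ((1 : Matrix (Fin 2) (Fin 2) ℂ) + (1 / k) • X), (1 / 2 : ℝ) • ((1 : Matrix (Fin 2) (Fin 2) ℂ) - (1 / k) • X)],
    ?_, ?_, ?_, ?_, ?_⟩
  · intro y
    have h1 : ∀ c : ℝ, (c • X).IsHermitian := by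
      intro c
      unfold Matrix.IsHermitian
      rw [Matrix.conjTranspose_smul, hXh.eq]
      simp
    have h2 : ∀ (c : ℝ) (Y : Matrix (Fin 2) (Fin 2) ℂ), Y.IsHermitian → (c • Y).IsHermitian := by
      intro c Y hY
      unfold Matrix.IsHermitian
      rw [Matrix.conjTranspose_smul, hY.eq]
      simp
    fin_cases y
    · exact h2 _ _ (Matrix.isHermitian_one.add (h1 _))
    · exact h2 _ _ (Matrix.isHermitian_one.sub (h1 _))
  · intro y
    have hk0 : k ≠ 0 := hk.ne'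
    fin_cases y
    · show (1 / 2 : ℝ) • ((1 : Matrix (Fin 2) (Fin 2) ℂ) + (1 / k) • X) * ((1 / 2 : ℝ) • ((1 : Matrix (Fin 2) (Fin 2) ℂ) + (1 / k) • X))
        = (1 / 2 : ℝ) • ((1 : Matrix (Fin 2) (Fin 2) ℂ) + (1 / k) • X)
      have : ((1 : Matrix (Fin 2) (Fin 2) ℂ) + (1 / k) • X) * ((1 : Matrix (Fin 2) (Fin 2) ℂ) + (1 / k) • X)
          = (2 : ℝ) • ((1 : Matrix (Fin 2) (Fin 2) ℂ) + (1 / k) • X) := by
        rw [add_mul, mul_add, mul_add, one_mul, one_mul, mul_one, smul_mul_assoc, mul_smul_comm,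
          hsq', smul_smul, smul_smul]
        have : 1 / k * (1 / k) * k ^ 2 = 1 := by field_simp
        rw [this]
        module
      rw [smul_mul_assoc, mul_smul_comm, this, smul_smul, smul_smul]
      congr 1
      norm_num
    · show (1 / 2 : ℝ) • ((1 : Matrix (Fin 2) (Fin 2) ℂ) - (1 / k) • X) * ((1 / 2 : ℝ) • ((1 : Matrix (Fin 2) (Fin 2) ℂ) - (1 / k) • X))
        = (1 / 2 : ℝ) • ((1 : Matrix (Fin 2) (Fin 2) ℂ) - (1 / k) • X)
      have : ((1 : Matrix (Fin 2) (Fin 2) ℂ) - (1 / k) • X) * ((1 : Matrix (Fin 2) (Fin 2) ℂ) - (1 / k) • X)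
          = (2 : ℝ) • ((1 : Matrix (Fin 2) (Fin 2) ℂ) - (1 / k) • X) := by
        rw [sub_mul, mul_sub, mul_sub, one_mul, one_mul, mul_one, smul_mul_assoc, mul_smul_comm,
          hsq', smul_smul, smul_smul]
        have : 1 / k * (1 / k) * k ^ 2 = 1 := by field_simp
        rw [this]
        module
      rw [smul_mul_assoc, mul_smul_comm, this, smul_smul, smul_smul]
      congr 1
      norm_num
  · intro y
    fin_cases y
    · show ((1 / 2 : ℝ) • ((1 : Matrix (Fin 2) (Fin 2) ℂ) + (1 / k) • X)).trace = 1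
      rw [Matrix.trace_smul, Matrix.trace_add, Matrix.trace_smul, hX0, Matrix.trace_one]
      simp
    · show ((1 / 2 : ℝ) • ((1 : Matrix (Fin 2) (Fin 2) ℂ) - (1 / k) • X)).trace = 1
      rw [Matrix.trace_smul, Matrix.trace_sub, Matrix.trace_smul, hX0, Matrix.trace_one]
      simp
  · show (1 / 2 : ℝ) • ((1 : Matrix (Fin 2) (Fin 2) ℂ) + (1 / k) • X) + (1 / 2 : ℝ) • ((1 : Matrix (Fin 2) (Fin 2) ℂ) - (1 / k) • X) = 1
    module
  · intro y
    have hk0 : k ≠ 0 := hk.ne'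
    fin_cases y
    · refine ⟨k + H.trace.re / 2, ?_⟩
      show H * ((1 / 2 : ℝ) • ((1 : Matrix (Fin 2) (Fin 2) ℂ) + (1 / k) • X))
        = (k + H.trace.re / 2) • ((1 / 2 : ℝ) • ((1 : Matrix (Fin 2) (Fin 2) ℂ) + (1 / k) • X))
      have h1 : X * ((1 : Matrix (Fin 2) (Fin 2) ℂ) + (1 / k) • X) = k • ((1 : Matrix (Fin 2) (Fin 2) ℂ) + (1 / k) • X) := by
        rw [mul_add, mul_one, mul_smul_comm, hsq', smul_add, smul_smul, smul_smul]
        have e1 : 1 / k * k ^ 2 = k := by field_simp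
        have e2 : k * (1 / k) = 1 := by field_simp
        rw [e1, e2]
        module
      conv_lhs => rw [hHX]
      rw [mul_smul_comm, add_mul, h1, smul_mul_assoc, one_mul]
      module
    · refine ⟨-k + H.trace.re / 2, ?_⟩
      show H * ((1 / 2 : ℝ) • ((1 : Matrix (Fin 2) (Fin 2) ℂ) - (1 / k) • X))
        = (-k + H.trace.re / 2) • ((1 / 2 : ℝ) • ((1 : Matrix (Fin 2) (Fin 2) ℂ) - (1 / k) • X))
      have h1 : X * ((1 : Matrix (Fin 2) (Fin 2) ℂ) - (1 / k) • X) = (-k) • ((1 : Matrix (Fin 2) (Fin 2) ℂ) - (1 / k) • X) := by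
        rw [mul_sub, mul_one, mul_smul_comm, hsq', smul_sub, smul_smul, smul_smul]
        have e1 : 1 / k * k ^ 2 = k := by field_simp
        have e2 : -k * (1 / k) = -1 := by field_simp
        rw [e1, e2]
        module
      conv_lhs => rw [hHX]
      rw [mul_smul_comm, add_mul, h1, smul_mul_assoc, one_mul]
      module

/-- Mutual information (natural logarithm, `0 log 0 = 0`) of a joint distribution on
`{0,1} × {0,1}`. -/
noncomputable def mutualInfo (P : Fin 2 → Fin 2 → ℝ) : ℝ :=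
  ∑ x, ∑ y, P x y * Real.log (P x y / ((∑ y', P x y') * ∑ x', P x' y))

lemma term_eq {w z m : ℝ} (hw : 0 ≤ w) (hz : 0 ≤ 1 + z) (hm : 0 < w → 0 < 1 + z → 0 < 1 + m) :
    w * (1 + z) / 2 * Real.log (w * (1 + z) / 2 / (w * ((1 + m) / 2)))
      = w * ((1 + z) * Real.log (1 + z)) / 2 - w * (1 + z) / 2 * Real.log (1 + m) := by
  rcases hw.eq_or_lt with h | h
  · rw [← h]; simp
  rcases hz.eq_or_lt with h' | h'
  · rw [← h']; simp
  have h1 := hm h h'
  have : w * (1 + z) / 2 / (w * ((1 + m) / 2)) = (1 + z) / (1 + m) := by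
    field_simp
  rw [this, Real.log_div h'.ne' h1.ne']
  ring

lemma mutualInfo_eq {p r u v s : ℝ} {Q : Fin 2 → Fin 2 → ℝ} (hp : 0 ≤ p) (hr : 0 ≤ r)
    (hpr : p + r = 1) (hu : u ^ 2 ≤ 1) (hv : v ^ 2 ≤ 1) (hs : s = 1 ∨ s = -1)
    (q00 : Q 0 0 = r * ((1 + s * v) / 2)) (q01 : Q 0 1 = r * ((1 - s * v) / 2))
    (q10 : Q 1 0 = p * ((1 + s * u) / 2)) (q11 : Q 1 1 = p * ((1 - s * u) / 2)) :
    mutualInfo Q = p * g u + r * g v - g (p * u + r * v) := by
  have hu' := abs_le.1 ((sq_le_one_iff_abs_le_one _).1 hu)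
  have hv' := abs_le.1 ((sq_le_one_iff_abs_le_one _).1 hv)
  have main : ∀ u v : ℝ, -1 ≤ u → u ≤ 1 → -1 ≤ v → v ≤ 1 → 
      r * (1 + v) / 2 * Real.log (r * (1 + v) / 2 / (r * ((1 + (p * u + r * v)) / 2)))
      + r * (1 + -v) / 2 * Real.log (r * (1 + -v) / 2 / (r * ((1 + -(p * u + r * v)) / 2)))
      + (p * (1 + u) / 2 * Real.log (p * (1 + u) / 2 / (p * ((1 + (p * u + r * v)) / 2)))
      + p * (1 + -u) / 2 * Real.log (p * (1 + -u) / 2 / (p * ((1 + -(p * u + r * v)) / 2))))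
      = p * g u + r * g v - g (p * u + r * v) := by
    intro u v h1 h2 h3 h4
    have hm1 : 1 + (p * u + r * v) = p * (1 + u) + r * (1 + v) := by linear_combination -hpr
    have hm2 : 1 + -(p * u + r * v) = p * (1 + -u) + r * (1 + -v) := by linear_combination -hpr
    have n1 : 0 ≤ p * (1 + u) := mul_nonneg hp (by linarith)
    have n2 : 0 ≤ r * (1 + v) := mul_nonneg hr (by linarith)
    have n3 : 0 ≤ p * (1 + -u) := mul_nonneg hp (by linarith)
    have n4 : 0 ≤ r * (1 + -v) := mul_nonneg hr (by linarith)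
    rw [term_eq hr (by linarith) (fun a b => by rw [hm1]; have := mul_pos a b; linarith),
      term_eq hr (by linarith) (fun a b => by rw [hm2]; have := mul_pos a b; linarith),
      term_eq hp (by linarith) (fun a b => by rw [hm1]; have := mul_pos a b; linarith),
      term_eq hp (by linarith) (fun a b => by rw [hm2]; have := mul_pos a b; linarith)]
    unfold g
    rw [sub_eq_add_neg 1 u, sub_eq_add_neg 1 v, sub_eq_add_neg 1 (p * u + r * v)]
    linear_combination (Real.log (1 + (p * u + r * v)) / 2) * hm1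
      + (Real.log (1 + -(p * u + r * v)) / 2) * hm2
  unfold mutualInfo
  simp only [Fin.sum_univ_two]
  rw [q00, q01, q10, q11]
  rcases hs with rfl | rfl
  · rw [← main u v hu'.1 hu'.2 hv'.1 hv'.2]
    have e1 : r * ((1 + 1 * v) / 2) + r * ((1 - 1 * v) / 2) = r := by ring
    have e2 : p * ((1 + 1 * u) / 2) + p * ((1 - 1 * u) / 2) = p := by ring
    have e3 : r * ((1 + 1 * v) / 2) + p * ((1 + 1 * u) / 2) = (1 + (p * u + r * v)) / 2 := by
      linear_combination hpr / 2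
    have e4 : r * ((1 - 1 * v) / 2) + p * ((1 - 1 * u) / 2) = (1 + -(p * u + r * v)) / 2 := by
      linear_combination hpr / 2
    rw [e1, e2, e3, e4]
    have f1 : r * ((1 + 1 * v) / 2) = r * (1 + v) / 2 := by ring
    have f2 : r * ((1 - 1 * v) / 2) = r * (1 + -v) / 2 := by ring
    have f3 : p * ((1 + 1 * u) / 2) = p * (1 + u) / 2 := by ring
    have f4 : p * ((1 - 1 * u) / 2) = p * (1 + -u) / 2 := by ring
    rw [f1, f2, f3, f4]
  · rw [← main u v hu'.1 hu'.2 hv'.1 hv'.2]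
    have e1 : r * ((1 + -1 * v) / 2) + r * ((1 - -1 * v) / 2) = r := by ring
    have e2 : p * ((1 + -1 * u) / 2) + p * ((1 - -1 * u) / 2) = p := by ring
    have e3 : r * ((1 + -1 * v) / 2) + p * ((1 + -1 * u) / 2) = (1 + -(p * u + r * v)) / 2 := by
      linear_combination hpr / 2
    have e4 : r * ((1 - -1 * v) / 2) + p * ((1 - -1 * u) / 2) = (1 + (p * u + r * v)) / 2 := by
      linear_combination hpr / 2
    rw [e1, e2, e3, e4]
    have f1 : r * ((1 + -1 * v) / 2) = r * (1 + -v) / 2 := by ring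
    have f2 : r * ((1 - -1 * v) / 2) = r * (1 + v) / 2 := by ring
    have f3 : p * ((1 + -1 * u) / 2) = p * (1 + -u) / 2 := by ring
    have f4 : p * ((1 - -1 * u) / 2) = p * (1 + u) / 2 := by ring
    rw [f1, f2, f3, f4]
    ring

end Pool.Agent.helper83.MIMat
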